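import Pool.Agent.Q253.OD.Glo
import Pool.Agent.Q253.P3.Main

/-!
# Oriented cycle double covers as flows: vertex cover number at most nine, and five vertices meeting
all paths with three vertices
-/

set_option autoImplicit false
set_option linter.unusedSectionVars false

namespace Pool.Agent.Q253.OD

open Finset
open Pool.Agent.TH676.A (crs mem_crs Br nl mem_nl ctr lp MC crs_lp crs_ctr nl_lp nl_ctr_sub not_nl_ctr Nis)
open Pool.Agent.Q253.M8
open Pool.Agent.TH499.TF (Joins)
open Pool.Agent.Q253.VC (gr deg_inc inc mem_inc Cov Hyp)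
open Pool.Agent.Q253.M8.BF (mc_mt mc_cov nisL n1 nz_of_flow)
open Pool.Agent.Q253.P3 (Cl3 mcA card_le gr_path odd_ni)

variable {V E : Type} [Fintype V] [DecidableEq V] [Fintype E] [DecidableEq E]

theorem hyp {s d : E → V} (hM : MinCx Rt s d) {X : Finset V}
    (hX : ∀ e, s e ≠ d e → s e ∈ X ∨ d e ∈ X) : Hyp (gr s d) X where
  cov := by
    rintro x y ⟨hne, e, he⟩
    rcases he with ⟨a, b⟩ | ⟨a, b⟩
    · have := hX e (by rw [a, b]; exact hne)
      rw [a, b] at this
      exact this
    · have := hX e (by rw [a, b]; exact hne.symm)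
      rw [a, b] at this
      exact this.symm
  three := by
    intro x y hxy
    have h1 := (dat hM).three x (mem_ni.2 ⟨y, hxy⟩)
    rwa [SimpleGraph.card_neighborFinset_eq_degree] at h1
  tri := (dat hM).tri
  quad := (dat hM).quad

theorem flow_of_cov (s d : E → V) (hb : Br s d ∅ ∅) (hc : Cov s d) :
    FlowOn Rt s d ∅ ∅ := by
  classical
  by_contra hn
  obtain ⟨s', d', ⟨X, hX, hXc⟩, hM⟩ := exists_minCx mc_cov s d hc hb hn
  have hS := smp hM
  rcases (hyp hM hXc).main hX with h | ⟨h1, h2⟩
  · have h1 := n1 hM.br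
    rcases TH362.TF.main16 s' d' univ h1 (by
        refine le_trans (card_le_card fun v hv => ?_) h
        have := (mem_filter.1 hv).2
        exact mem_filter.2 ⟨mem_univ _, (VC.odd_deg hS v).1 this⟩) with h2 | h2
    · exact hM.nf (flow_of_nz h2)
    · exact no_pq hM h2
  · exact hM.nf (flow_of_nz (nz_of_flow (VC.flow_bip hS X hXc h1 h2)))

theorem flow_of_p3 (s d : E → V) (hb : Br s d ∅ ∅) (hc : Cl3 s d) :
    FlowOn Rt s d ∅ ∅ := by
  classical
  by_contra hn
  obtain ⟨s', d', ⟨X, hX, hm'⟩, hM⟩ := exists_minCx mcA s d hc hb hn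
  have hS := smp hM
  have h1 := n1 hM.br
  have h3 := card_le (dat hM) X hX (gr_path hm')
  have h4 := odd_ni s' d'
  rcases TH362.TF.main16 s' d' univ h1 (by
      refine le_trans (card_le_card fun v hv => ?_)
        (show (univ.filter fun v => Odd ((gr s' d').degree v)).card ≤ 16 by omega)
      have := (mem_filter.1 hv).2
      exact mem_filter.2 ⟨mem_univ _, (VC.odd_deg hS v).1 this⟩) with h2 | h2
  · exact hM.nf (flow_of_nz h2)
  · exact no_pq hM h2

end Pool.Agent.Q253.OD
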