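import Pool.Agent.Q253.OD.Cut

set_option autoImplicit false
set_option linter.unusedSectionVars false

/-! # The values of oriented double covers: differences of two unit vectors -/

namespace Pool.Agent.Q253.OD

open Finset

/-- the difference of two unit vectors -/
def rt (i j : ℕ) : ℕ → ℤ := Pi.single i 1 - Pi.single j 1

/-- the allowed values -/
def Rt (z : ℕ → ℤ) : Prop := ∃ i j, i ≠ j ∧ z = rt i j

theorem rt_self (i : ℕ) : rt i i = 0 := sub_self _

theorem rt_neg (i j : ℕ) : -rt i j = rt j i := neg_sub _ _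

theorem rt_add (i j k : ℕ) : rt i j + rt j k = rt i k := by
  unfold rt; abel

theorem rt_add' (i j k : ℕ) : rt i j + rt k i = rt k j := by
  unfold rt; abel

theorem rt_apply (i j n : ℕ) : rt i j n = (if n = i then 1 else 0) - (if n = j then 1 else 0) := by
  unfold rt
  rw [Pi.sub_apply, Pi.single_apply, Pi.single_apply]

theorem rt_ne_zero {i j : ℕ} (h : i ≠ j) : rt i j ≠ 0 := by
  intro h0
  have := congrFun h0 i
  rw [rt_apply, if_pos rfl, if_neg h] at this
  norm_num at this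

theorem rt_inj {i j k l : ℕ} (h : i ≠ j) (he : rt i j = rt k l) : i = k ∧ j = l := by
  have h1 := congrFun he i
  have h2 := congrFun he j
  rw [rt_apply, rt_apply, if_pos rfl, if_neg h] at h1
  rw [rt_apply, rt_apply, if_neg h.symm, if_pos rfl] at h2
  constructor
  · by_contra hne
    rw [if_neg hne] at h1
    split_ifs at h1 <;> norm_num at h1
  · by_contra hne
    rw [if_neg hne] at h2
    split_ifs at h2 <;> norm_num at h2

theorem Rt.of {i j : ℕ} (h : i ≠ j) : Rt (rt i j) := ⟨i, j, h, rfl⟩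

theorem Rt.ng {z : ℕ → ℤ} (h : Rt z) : Rt (-z) := by
  obtain ⟨i, j, hne, rfl⟩ := h
  rw [rt_neg]
  exact Rt.of hne.symm

/-- the action of a permutation of the colours -/
def act (π : Equiv.Perm ℕ) : (ℕ → ℤ) →+ (ℕ → ℤ) where
  toFun z := fun n => z (π.symm n)
  map_zero' := rfl
  map_add' _ _ := rfl

theorem act_rt (π : Equiv.Perm ℕ) (i j : ℕ) : act π (rt i j) = rt (π i) (π j) := by
  funext n
  change rt i j (π.symm n) = _
  rw [rt_apply, rt_apply]
  simp only [Equiv.symm_apply_eq]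

theorem act_Rt (π : Equiv.Perm ℕ) {z : ℕ → ℤ} (h : Rt z) : Rt (act π z) := by
  obtain ⟨i, j, hne, rfl⟩ := h
  rw [act_rt]
  exact Rt.of fun he => hne (π.injective he)

theorem exists_perm {i j k i' j' k' : ℕ} (h1 : i ≠ j) (h2 : i ≠ k) (h3 : j ≠ k) (g1 : i' ≠ j')
    (g2 : i' ≠ k') (g3 : j' ≠ k') : ∃ π : Equiv.Perm ℕ, π i = i' ∧ π j = j' ∧ π k = k' := by
  set p1 := Equiv.swap i i' with hp1
  have a1 : p1 i = i' := Equiv.swap_apply_left _ _
  have n1 : p1 j ≠ i' := fun h => h1 (p1.injective (by rw [a1, h]))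
  set p2 := Equiv.swap (p1 j) j' with hp2
  have b1 : p2 i' = i' := Equiv.swap_apply_of_ne_of_ne n1.symm g1
  have b2 : p2 (p1 j) = j' := Equiv.swap_apply_left _ _
  have n2 : p2 (p1 k) ≠ i' := fun h => h2 (p1.injective (p2.injective (by rw [a1, b1, h])))
  have n3 : p2 (p1 k) ≠ j' := fun h => h3 (p1.injective (p2.injective (by rw [b2, h])))
  set p3 := Equiv.swap (p2 (p1 k)) k' with hp3
  refine ⟨(p1.trans p2).trans p3, ?_, ?_, ?_⟩
  · change p3 (p2 (p1 i)) = i'
    rw [a1, b1]
    exact Equiv.swap_apply_of_ne_of_ne n2.symm g2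
  · change p3 (p2 (p1 j)) = j'
    rw [b2]
    exact Equiv.swap_apply_of_ne_of_ne n3.symm g3
  · change p3 (p2 (p1 k)) = k'
    exact Equiv.swap_apply_left _ _

/-- two roots whose sum is a root -/
theorem two_form {a b : ℕ → ℤ} (ha : Rt a) (hb : Rt b) (hab : Rt (a + b)) :
    (∃ i j k, i ≠ j ∧ i ≠ k ∧ j ≠ k ∧ a = rt i j ∧ b = rt j k) ∨
    (∃ i j k, i ≠ j ∧ i ≠ k ∧ j ≠ k ∧ -a = rt i j ∧ -b = rt j k) := by
  obtain ⟨i, j, hij, rfl⟩ := ha
  obtain ⟨k, l, hkl, rfl⟩ := hb
  obtain ⟨p, q, hpq, he⟩ := hab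
  have ev := fun n => congrFun he n
  simp only [Pi.add_apply, rt_apply] at ev
  by_cases hjk : j = k
  · subst hjk
    by_cases hil : i = l
    · subst hil
      rw [rt_add, rt_self] at he
      exact absurd he.symm (rt_ne_zero hpq)
    · exact Or.inl ⟨i, j, l, hij, hil, hkl, rfl, rfl⟩
  · by_cases hil : i = l
    · subst hil
      refine Or.inr ⟨j, i, k, hij.symm, hjk, hkl.symm, rt_neg _ _, rt_neg _ _⟩
    · exfalso
      -- i and k are positive, j and l negative
      have e1 := ev i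
      have e2 := ev k
      rw [if_pos rfl, if_neg hij, if_neg hil] at e1
      by_cases hik : i = k
      · subst hik
        rw [if_pos rfl] at e1
        split_ifs at e1 <;> norm_num at e1
      · rw [if_neg hik] at e1
        rw [if_neg (fun h => hik h.symm), if_neg (fun h => hjk h.symm), if_pos rfl,
          if_neg hkl] at e2
        have hip : i = p := by
          by_contra hne
          rw [if_neg hne] at e1
          split_ifs at e1 <;> norm_num at e1
        have hkp : k = p := by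
          by_contra hne
          rw [if_neg hne] at e2
          split_ifs at e2 <;> norm_num at e2
        exact hik (hip.trans hkp.symm)

theorem hom_aux {i j k i' j' k' : ℕ} (h1 : i ≠ j) (h2 : i ≠ k) (h3 : j ≠ k) (g1 : i' ≠ j')
    (g2 : i' ≠ k') (g3 : j' ≠ k') :
    ∃ σ : (ℕ → ℤ) →+ (ℕ → ℤ), (∀ x, Rt x → Rt (σ x)) ∧ σ (rt i j) = rt i' j' ∧
      σ (rt j k) = rt j' k' := by
  obtain ⟨π, a, b, c⟩ := exists_perm h1 h2 h3 g1 g2 g3
  exact ⟨act π, fun x hx => act_Rt π hx, by rw [act_rt, a, b], by rw [act_rt, b, c]⟩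

theorem alg : Alg Rt where
  zero := by
    rintro ⟨i, j, h, he⟩
    exact rt_ne_zero h he.symm
  neg := fun x h => h.ng
  hom := by
    intro a b a' b' ha hb hab ha' hb' hab'
    rcases two_form ha hb hab with ⟨i, j, k, h1, h2, h3, e1, e2⟩ | ⟨i, j, k, h1, h2, h3, e1, e2⟩ <;>
    rcases two_form ha' hb' hab' with ⟨i', j', k', g1, g2, g3, e3, e4⟩ |
      ⟨i', j', k', g1, g2, g3, e3, e4⟩ <;>
    obtain ⟨σ, s1, s2, s3⟩ := hom_aux h1 h2 h3 g1 g2 g3
    · exact ⟨σ, s1, by rw [e1, e3, s2], by rw [e2, e4, s3]⟩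
    · refine ⟨-σ, fun x hx => (s1 x hx).ng, ?_, ?_⟩
      · rw [AddMonoidHom.neg_apply, e1, s2, ← e3, neg_neg]
      · rw [AddMonoidHom.neg_apply, e2, s3, ← e4, neg_neg]
    · refine ⟨-σ, fun x hx => (s1 x hx).ng, ?_, ?_⟩
      · rw [AddMonoidHom.neg_apply, ← map_neg, e1, s2, e3]
      · rw [AddMonoidHom.neg_apply, ← map_neg, e2, s3, e4]
    · refine ⟨σ, s1, ?_, ?_⟩
      · have h := s2
        rw [← e1, ← e3, map_neg] at h
        exact neg_injective h
      · have h := s3
        rw [← e2, ← e4, map_neg] at h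
        exact neg_injective h

/-- the circulation around a deleted circuit -/
theorem s3 {a c : ℕ → ℤ} (ha : Rt a) (hc : Rt c) (hne : a + c ≠ 0) :
    ∃ t, Rt t ∧ Rt (a + t) ∧ Rt (c + t) := by
  obtain ⟨i, j, hij, rfl⟩ := ha
  obtain ⟨k, l, hkl, rfl⟩ := hc
  by_cases hjl : j = l
  · subst hjl
    obtain ⟨x, hx⟩ := Infinite.exists_notMem_finset ({i, j, k} : Finset ℕ)
    simp only [mem_insert, mem_singleton, not_or] at hx
    refine ⟨rt j x, Rt.of (Ne.symm hx.2.1), ?_, ?_⟩
    · rw [rt_add]; exact Rt.of (Ne.symm hx.1)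
    · rw [rt_add]; exact Rt.of (Ne.symm hx.2.2)
  · by_cases hik : i = k
    · subst hik
      obtain ⟨x, hx⟩ := Infinite.exists_notMem_finset ({i, j, l} : Finset ℕ)
      simp only [mem_insert, mem_singleton, not_or] at hx
      refine ⟨rt x i, Rt.of hx.1, ?_, ?_⟩
      · rw [rt_add']; exact Rt.of hx.2.1
      · rw [rt_add']; exact Rt.of hx.2.2
    · by_cases hjk : j = k
      · subst hjk
        have hil : i ≠ l := by
          rintro rfl
          rw [rt_add, rt_self] at hne
          exact hne rfl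
        refine ⟨rt l i, Rt.of hil.symm, ?_, ?_⟩
        · rw [rt_add']; exact Rt.of (Ne.symm hjl)
        · rw [rt_add]; exact Rt.of hij.symm
      · refine ⟨rt j k, Rt.of hjk, ?_, ?_⟩
        · rw [rt_add]; exact Rt.of hik
        · rw [rt_add']; exact Rt.of hjl

/-- changing a colour on a part of its class -/
theorem recol {z : ℕ → ℤ} {i k : ℕ} {c : ℤ} (hz : Rt z) (hk : z k = 0)
    (hc : c = 0 ∨ c = z i) : Rt (z + c • rt k i) := by
  rcases hc with rfl | rfl
  · rwa [zero_smul, add_zero]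
  · obtain ⟨p, q, hpq, rfl⟩ := hz
    rw [rt_apply] at hk
    have hkp : k ≠ p := by
      rintro rfl
      rw [if_pos rfl, if_neg hpq] at hk
      norm_num at hk
    have hkq : k ≠ q := by
      rintro rfl
      rw [if_neg hpq.symm, if_pos rfl] at hk
      norm_num at hk
    rw [rt_apply]
    by_cases h1 : i = p
    · subst h1
      rw [if_pos rfl, if_neg hpq, sub_zero, one_smul, rt_add']
      exact Rt.of hkq
    · by_cases h2 : i = q
      · subst h2
        rw [if_neg h1, if_pos rfl, zero_sub, neg_smul, one_smul, rt_neg, rt_add]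
        exact Rt.of hkp.symm
      · rw [if_neg h1, if_neg h2, sub_zero, zero_smul, add_zero]
        exact Rt.of hpq

theorem Rt.val {z : ℕ → ℤ} (h : Rt z) (n : ℕ) : z n = 0 ∨ z n = 1 ∨ z n = -1 := by
  obtain ⟨i, j, hne, rfl⟩ := h
  rw [rt_apply]
  split_ifs <;> norm_num

theorem Rt.fin {z : ℕ → ℤ} (h : Rt z) : {n | z n ≠ 0}.Finite := by
  obtain ⟨i, j, hne, rfl⟩ := h
  refine Set.Finite.subset (Set.toFinite ({i, j} : Set ℕ)) fun n hn => ?_
  by_contra hc
  simp only [Set.mem_insert_iff, Set.mem_singleton_iff, not_or] at hc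
  apply hn
  rw [rt_apply, if_neg hc.1, if_neg hc.2, sub_zero]

/-- fresh colours -/
theorem fresh {E : Type} [Fintype E] (f : E → ℕ → ℤ) (hf : ∀ e, f e = 0 ∨ Rt (f e))
    (S : Finset ℕ) : ∃ k, k ∉ S ∧ ∀ e, f e k = 0 := by
  have h1 : (⋃ e, {n | f e n ≠ 0}).Finite := by
    refine Set.finite_iUnion fun e => ?_
    rcases hf e with h | h
    · rw [h]
      simp
    · exact h.fin
  obtain ⟨k, hk⟩ := Infinite.exists_notMem_finset (h1.toFinset ∪ S)
  rw [mem_union, not_or, Set.Finite.mem_toFinset, Set.mem_iUnion] at hk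
  refine ⟨k, hk.2, fun e => ?_⟩
  by_contra hne
  exact hk.1 ⟨e, hne⟩

end Pool.Agent.Q253.OD
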