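import Pool.Agent.Q253.OD.Crit
import Pool.Agent.TH676.A.Cut

set_option autoImplicit false
set_option linter.unusedSectionVars false

/-! # Edge cuts of a minimal counterexample (signed version of `Pool/Agent/TH676/A/Cut.lean`) -/

namespace Pool.Agent.Q253.OD

open Finset
open Pool.Agent.TH676.A (crs mem_crs Br nl mem_nl ctr lp MC crs_lp crs_ctr nl_lp nl_ctr_sub not_nl_ctr Nis)

variable {V E : Type} [Fintype V] [DecidableEq V] [Fintype E] [DecidableEq E]
variable {Γ : Type} [AddCommGroup Γ]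

/-- the properties of the set `A` of allowed values in the group -/
structure Alg (A : Γ → Prop) : Prop where
  zero : ¬ A 0
  neg : ∀ x, A x → A (-x)
  hom : ∀ a b a' b' : Γ, A a → A b → A (a + b) → A a' → A b' → A (a' + b') →
    ∃ σ : Γ →+ Γ, (∀ x, A x → A (σ x)) ∧ σ a = a' ∧ σ b = b'

/-- the signed sum of a flow over an edge cut -/
theorem sum_cut {src dst : E → V} {f : E → Γ} {Y : Finset V}
    (h : ∀ v ∈ Y, bd src dst f v = 0) :
    ∑ e ∈ crs src dst Y, (if src e ∈ Y then f e else - f e) = 0 := by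
  have h1 : ∑ v ∈ Y, bd src dst f v = 0 := sum_eq_zero h
  unfold bd at h1
  rw [sum_comm] at h1
  refine Eq.trans ?_ h1
  unfold crs
  rw [sum_filter]
  refine sum_congr rfl fun e _ => ?_
  rw [sum_sub_distrib, sum_ite_eq, sum_ite_eq]
  by_cases h2 : src e ∈ Y <;> by_cases h3 : dst e ∈ Y <;> simp [h2, h3]

/-- flows on the two sides of a cut which agree up to an automorphism give a flow -/
theorem glue {A : Γ → Prop} {src dst : E → V} {f1 f2 : E → Γ} {Y : Finset V} (σ : Γ →+ Γ)
    (hσ : ∀ x, A x → A (σ x)) (h1 : ∀ v ∈ Y, bd src dst f1 v = 0)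
    (h2 : ∀ v, v ∉ Y → bd src dst f2 v = 0)
    (hn1 : ∀ e, (src e ∈ Y ∨ dst e ∈ Y) → A (f1 e))
    (hn2 : ∀ e, src e ∉ Y → dst e ∉ Y → A (f2 e))
    (ha : ∀ e ∈ crs src dst Y, f1 e = σ (f2 e)) : FlowOn A src dst ∅ ∅ := by
  refine ⟨fun e => if src e ∈ Y ∨ dst e ∈ Y then f1 e else σ (f2 e), fun v => ?_,
    fun e he => absurd he (notMem_empty _), fun e _ _ => ?_⟩
  · by_cases hv : v ∈ Y
    · rw [← h1 v hv]
      unfold bd
      refine sum_congr rfl fun e _ => ?_
      by_cases h3 : src e = v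
      · have : src e ∈ Y := h3 ▸ hv
        simp [this]
      · by_cases h4 : dst e = v
        · have : dst e ∈ Y := h4 ▸ hv
          simp [this]
        · simp [h3, h4]
    · have h5 : σ (bd src dst f2 v) = 0 := by rw [h2 v hv, map_zero]
      rw [← h5]
      unfold bd
      rw [map_sum]
      refine sum_congr rfl fun e _ => ?_
      rw [map_sub]
      beta_reduce
      have key : (src e = v ∨ dst e = v) →
          (if src e ∈ Y ∨ dst e ∈ Y then f1 e else σ (f2 e)) = σ (f2 e) := by
        intro h6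
        split_ifs with h7
        · refine ha e (mem_crs.mpr ?_)
          rcases h6 with h6 | h6
          · have : src e ∉ Y := h6 ▸ hv
            tauto
          · have : dst e ∉ Y := h6 ▸ hv
            tauto
        · rfl
      by_cases h3 : src e = v
      · rw [if_pos h3, if_pos h3, key (Or.inl h3)]
        by_cases h4 : dst e = v
        · rw [if_pos h4, if_pos h4]
        · rw [if_neg h4, if_neg h4, map_zero]
      · rw [if_neg h3, if_neg h3, map_zero]
        by_cases h4 : dst e = v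
        · rw [if_pos h4, if_pos h4, key (Or.inr h4)]
        · rw [if_neg h4, if_neg h4, map_zero]
  · change A (if src e ∈ Y ∨ dst e ∈ Y then f1 e else σ (f2 e))
    split_ifs with h
    · exact hn1 e h
    · rw [not_or] at h
      exact hσ _ (hn2 e h.1 h.2)

/-- contraction only -/
theorem con {A : Γ → Prop} {src dst : E → V} (h : MinCx A src dst) (C : Finset E)
    (hne : ∃ e ∈ C, src e ≠ dst e) : FlowOn A src dst ∅ C := by
  refine h.crit ∅ C (disjoint_empty_left _) (by simpa using hne) ?_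
  intro Y _
  have := h.br Y (disjoint_empty_right _)
  simpa using this

/-- the two flows at a cut -/
theorem sides {A : Γ → Prop} {src dst : E → V} (h : MinCx A src dst) (Y : Finset V)
    (h1 : ∃ e, src e ≠ dst e ∧ src e ∈ Y ∧ dst e ∈ Y)
    (h2 : ∃ e, src e ≠ dst e ∧ src e ∉ Y ∧ dst e ∉ Y) :
    ∃ f1 f2 : E → Γ, (∀ v, bd src dst f1 v = 0) ∧ (∀ v, bd src dst f2 v = 0) ∧
      (∀ e, (src e ∈ Y ∨ dst e ∈ Y) → A (f1 e)) ∧
      (∀ e, (src e ∉ Y ∨ dst e ∉ Y) → A (f2 e)) := by
  obtain ⟨f1, a1, _, a3⟩ := con h (univ.filter (fun e => src e ∉ Y ∧ dst e ∉ Y)) (by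
    obtain ⟨e, he, he2⟩ := h2
    exact ⟨e, by simpa using he2, he⟩)
  obtain ⟨f2, b1, _, b3⟩ := con h (univ.filter (fun e => src e ∈ Y ∧ dst e ∈ Y)) (by
    obtain ⟨e, he, he2⟩ := h1
    exact ⟨e, by simpa using he2, he⟩)
  refine ⟨f1, f2, a1, b1, fun e he => a3 e (notMem_empty _) ?_,
    fun e he => b3 e (notMem_empty _) ?_⟩
  · simp only [mem_filter, mem_univ, true_and]; tauto
  · simp only [mem_filter, mem_univ, true_and]; tauto

/-- every edge cut with non-isolated vertices on both sides has at least three edges -/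
theorem cut3 {A : Γ → Prop} (hA : Alg A) {src dst : E → V} (h : MinCx A src dst) {Y : Finset V} {x y : V} (hx : x ∈ Y)
    (hy : y ∉ Y) (nx : Nis src dst x) (ny : Nis src dst y) : 3 ≤ (crs src dst Y).card := by
  by_contra hlt
  have h1 : (crs src dst Y).card ≠ 1 := by
    have := h.br Y (disjoint_empty_right _)
    simpa using this
  have h02 : (crs src dst Y).card = 0 ∨ (crs src dst Y).card = 2 := by omega
  rcases h02 with h0 | h2
  · rw [card_eq_zero] at h0
    have hin : ∀ e, (src e ∈ Y ↔ dst e ∈ Y) := by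
      intro e
      by_contra hc
      have := mem_crs.mpr hc
      rw [h0] at this
      exact absurd this (notMem_empty _)
    obtain ⟨f1, f2, a1, a2, a3, a4⟩ := sides h Y (by
      obtain ⟨e, he, he2⟩ := nx
      refine ⟨e, he, ?_⟩
      rcases he2 with he2 | he2
      · have : src e ∈ Y := he2 ▸ hx
        exact ⟨this, (hin e).mp this⟩
      · have : dst e ∈ Y := he2 ▸ hx
        exact ⟨(hin e).mpr this, this⟩) (by
      obtain ⟨e, he, he2⟩ := ny
      refine ⟨e, he, ?_⟩
      rcases he2 with he2 | he2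
      · have : src e ∉ Y := he2 ▸ hy
        exact ⟨this, fun hd => this ((hin e).mpr hd)⟩
      · have : dst e ∉ Y := he2 ▸ hy
        exact ⟨fun hd => this ((hin e).mp hd), this⟩)
    refine h.nf (glue (Y := Y) (f1 := f1) (f2 := f2) (AddMonoidHom.id Γ) (fun x hx => hx)
      (fun v _ => a1 v) (fun v _ => a2 v) a3 (fun e he _ => a4 e (Or.inl he)) ?_)
    intro e he
    rw [h0] at he
    exact absurd he (notMem_empty _)
  · obtain ⟨e1, e2, hne, hY⟩ := card_eq_two.mp h2
    have he1 : e1 ∈ crs src dst Y := by rw [hY]; simp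
    obtain ⟨f, hf1, _, hf2⟩ := con h {e1} ⟨e1, by simp, fun heq => by
      rw [mem_crs, heq] at he1; exact he1 Iff.rfl⟩
    have hsum := sum_cut (src := src) (dst := dst) (f := f) (Y := Y) (fun v _ => hf1 v)
    rw [hY, sum_pair hne] at hsum
    refine h.nf ⟨f, hf1, fun e he => absurd he (notMem_empty _), fun e _ _ => ?_⟩
    by_cases hee : e = e1
    · subst hee
      have h5 : A (f e2) := hf2 e2 (notMem_empty _) (by simpa using hne.symm)
      have h6 : f e = f e2 ∨ f e = - f e2 := by
        split_ifs at hsum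
        · right; exact eq_neg_of_add_eq_zero_left hsum
        · left; exact add_neg_eq_zero.1 hsum
        · left; exact neg_add_eq_zero.1 hsum
        · right
          have := congrArg Neg.neg hsum
          rw [neg_add, neg_neg, neg_neg, neg_zero] at this
          exact eq_neg_of_add_eq_zero_left this
      rcases h6 with h6 | h6
      · rw [h6]; exact h5
      · rw [h6]; exact hA.neg _ h5
    · exact hf2 e (notMem_empty _) (by simpa using hee)

/-- every edge cut with at least two vertices on both sides has at least four edges -/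
theorem cut4 {A : Γ → Prop} (hA : Alg A) {src dst : E → V} (h : MinCx A src dst) {Y : Finset V} {x x2 y y2 : V} (hx : x ∈ Y)
    (hx2 : x2 ∈ Y) (hxx : x ≠ x2) (hy : y ∉ Y) (hy2 : y2 ∉ Y) (hyy : y ≠ y2)
    (nx : Nis src dst x) (nx2 : Nis src dst x2) (ny : Nis src dst y) (ny2 : Nis src dst y2) :
    4 ≤ (crs src dst Y).card := by
  by_contra hlt
  have h3 : (crs src dst Y).card = 3 := by
    have := cut3 hA h hx hy nx ny
    omega
  -- a side without proper edges is too small
  have side : ∀ (p p2 : V) (Q : V → Prop), Q p → Q p2 → p ≠ p2 → Nis src dst p → Nis src dst p2 →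
      (∀ e, src e ≠ dst e → Q (src e) → ¬ Q (dst e)) →
      (∀ e, (Q (src e) ↔ ¬ Q (dst e)) → e ∈ crs src dst Y) → False := by
    intro p p2 Q hp hp2 hpp np np2 hQ hQ2
    have c1 : 3 ≤ (crs src dst {p}).card :=
      cut3 hA h (x := p) (y := p2) (mem_singleton_self _) (by simpa using hpp.symm) np np2
    have c2 : 3 ≤ (crs src dst {p2}).card :=
      cut3 hA h (x := p2) (y := p) (mem_singleton_self _) (by simpa using hpp) np2 np
    have hsub : ∀ q, Q q → ∀ e ∈ crs src dst {q}, e ∈ crs src dst Y ∧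
        (src e ≠ dst e) ∧ ((src e = q ∧ ¬ Q (dst e)) ∨ (dst e = q ∧ ¬ Q (src e))) := by
      intro q hq e he
      rw [mem_crs, mem_singleton, mem_singleton] at he
      have hne : src e ≠ dst e := fun heq => he (by rw [heq])
      by_cases hs : src e = q
      · have h5 : Q (src e) := hs ▸ hq
        have h6 := hQ e hne h5
        exact ⟨hQ2 e ⟨fun _ => h6, fun _ => h5⟩, hne, Or.inl ⟨hs, h6⟩⟩
      · have hd : dst e = q := by tauto
        have h5 : Q (dst e) := hd ▸ hq
        have h6 : ¬ Q (src e) := fun h6 => hQ e hne h6 h5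
        exact ⟨hQ2 e ⟨fun h7 => absurd h7 h6, fun h7 => absurd h5 h7⟩, hne, Or.inr ⟨hd, h6⟩⟩
    have hdis : Disjoint (crs src dst {p}) (crs src dst {p2}) := by
      rw [disjoint_left]
      intro e he he2
      obtain ⟨_, _, h5⟩ := hsub p hp e he
      obtain ⟨_, _, h6⟩ := hsub p2 hp2 e he2
      rcases h5 with ⟨a1, a2⟩ | ⟨a1, a2⟩ <;> rcases h6 with ⟨b1, b2⟩ | ⟨b1, b2⟩
      · exact hpp (a1.symm.trans b1)
      · exact a2 (b1 ▸ hp2)
      · exact b2 (a1 ▸ hp)
      · exact hpp (a1.symm.trans b1)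
    have hle : (crs src dst {p} ∪ crs src dst {p2}).card ≤ (crs src dst Y).card :=
      card_le_card (union_subset (fun e he => (hsub p hp e he).1)
        (fun e he => (hsub p2 hp2 e he).1))
    rw [card_union_of_disjoint hdis] at hle
    omega
  obtain ⟨f1, f2, a1, a2, a3, a4⟩ := sides h Y (by
    by_contra hc
    push Not at hc
    exact side x x2 (fun z => z ∈ Y) hx hx2 hxx nx nx2 hc (fun e he => mem_crs.mpr (by tauto)))
    (by
    by_contra hc
    push Not at hc
    exact side y y2 (fun z => z ∉ Y) hy hy2 hyy ny ny2 (fun e he h5 => by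
      rw [not_not]; exact hc e he h5) (fun e he => mem_crs.mpr (by tauto)))
  obtain ⟨e1, e2, e3, h12, h13, h23, hY⟩ := card_eq_three.mp h3
  have s1 := sum_cut (src := src) (dst := dst) (f := f1) (Y := Y) (fun v _ => a1 v)
  have s2 := sum_cut (src := src) (dst := dst) (f := f2) (Y := Y) (fun v _ => a2 v)
  have hm1 : e1 ∉ ({e2, e3} : Finset E) := by simp [h12, h13]
  rw [hY, sum_insert hm1, sum_pair h23] at s1 s2
  have hm : ∀ e, e = e1 ∨ e = e2 ∨ e = e3 → A (f1 e) ∧ A (f2 e) := by
    intro e he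
    have he' : e ∈ crs src dst Y := by rw [hY]; simpa using he
    rw [mem_crs] at he'
    exact ⟨a3 e (by tauto), a4 e (by tauto)⟩
  -- the signed values
  set g1 : E → Γ := fun e => if src e ∈ Y then f1 e else - f1 e with hg1
  set g2 : E → Γ := fun e => if src e ∈ Y then f2 e else - f2 e with hg2
  have s1' : g1 e1 + (g1 e2 + g1 e3) = 0 := s1
  have s2' : g2 e1 + (g2 e2 + g2 e3) = 0 := s2
  have hgm : ∀ e, e = e1 ∨ e = e2 ∨ e = e3 → A (g1 e) ∧ A (g2 e) := by
    intro e he
    obtain ⟨p, q⟩ := hm e he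
    rw [hg1, hg2]
    beta_reduce
    split_ifs
    · exact ⟨p, q⟩
    · exact ⟨hA.neg _ p, hA.neg _ q⟩
  have t1 : g1 e3 = -(g1 e1 + g1 e2) := by
    rw [← add_assoc] at s1'
    exact (neg_eq_of_add_eq_zero_right s1').symm
  have u1 : g2 e3 = -(g2 e1 + g2 e2) := by
    rw [← add_assoc] at s2'
    exact (neg_eq_of_add_eq_zero_right s2').symm
  have k1 : A (g1 e1 + g1 e2) := by
    have := hA.neg _ (hgm e3 (Or.inr (Or.inr rfl))).1
    rwa [t1, neg_neg] at this
  have k2 : A (g2 e1 + g2 e2) := by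
    have := hA.neg _ (hgm e3 (Or.inr (Or.inr rfl))).2
    rwa [u1, neg_neg] at this
  obtain ⟨σ, hσ, q1, q2⟩ := hA.hom (g2 e1) (g2 e2) (g1 e1) (g1 e2)
    (hgm e1 (Or.inl rfl)).2 (hgm e2 (Or.inr (Or.inl rfl))).2 k2
    (hgm e1 (Or.inl rfl)).1 (hgm e2 (Or.inr (Or.inl rfl))).1 k1
  have q3 : σ (g2 e3) = g1 e3 := by rw [t1, u1, map_neg, map_add, q1, q2]
  refine h.nf (glue (Y := Y) (f1 := f1) (f2 := f2) σ hσ (fun v _ => a1 v) (fun v _ => a2 v) a3
    (fun e he _ => a4 e (Or.inl he)) ?_)
  intro e he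
  have key : σ (g2 e) = g1 e := by
    rw [hY, mem_insert, mem_insert, mem_singleton] at he
    rcases he with rfl | rfl | rfl
    · exact q1
    · exact q2
    · exact q3
  rw [hg1, hg2] at key
  beta_reduce at key
  split_ifs at key
  · exact key.symm
  · rw [map_neg] at key
    exact (neg_injective key).symm

end Pool.Agent.Q253.OD
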