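import Pool.Agent.Q253.OD.Col

set_option autoImplicit false
set_option linter.unusedSectionVars false

/-! # Directions and the extraction of paths from flows with the values 0, 1, -1 -/

namespace Pool.Agent.Q253.OD

open Finset
open Pool.Agent.TH676.A (crs mem_crs Br nl mem_nl ctr lp MC crs_lp crs_ctr nl_lp nl_ctr_sub not_nl_ctr Nis)

variable {V E : Type} [Fintype V] [DecidableEq V] [Fintype E] [DecidableEq E]
variable {Γ : Type} [AddCommGroup Γ]

/-- the edge `e` joins `x` and `y` -/
def Jn (s d : E → V) (e : E) (x y : V) : Prop := (s e = x ∧ d e = y) ∨ (s e = y ∧ d e = x)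

theorem Jn.symm {s d : E → V} {e : E} {x y : V} (h : Jn s d e x y) : Jn s d e y x := Or.symm h

/-- the value `t` on the edge `e` in the direction away from `x` -/
def dr (s : E → V) (e : E) (x : V) (t : Γ) : Γ := if s e = x then t else -t

theorem dr_dr (s : E → V) (e : E) (x : V) (t : Γ) : dr s e x (dr s e x t) = t := by
  unfold dr
  split_ifs
  · rfl
  · exact neg_neg t

theorem dr_add (s : E → V) (e : E) (x : V) (a t : Γ) : dr s e x (a + t) = dr s e x a + dr s e x t := by
  unfold dr
  split_ifs
  · rfl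
  · exact neg_add _ _

theorem dr_rev {s d : E → V} {e : E} {x y : V} (h : Jn s d e x y) (hne : x ≠ y) (t : Γ) :
    dr s e y t = - dr s e x t := by
  unfold dr
  rcases h with ⟨h1, h2⟩ | ⟨h1, h2⟩
  · rw [if_neg (by rw [h1]; exact hne), if_pos h1]
  · rw [if_pos h1, if_neg (by rw [h1]; exact hne.symm), neg_neg]

theorem bd_zero (s d : E → V) (v : V) : bd s d (0 : E → Γ) v = 0 := by
  unfold bd
  refine sum_eq_zero fun e _ => ?_
  simp

theorem bd_neg (s d : E → V) (f : E → Γ) (v : V) : bd s d (-f) v = - bd s d f v := by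
  have h := bd_add s d (-f) f v
  rw [neg_add_cancel, bd_zero] at h
  exact (neg_eq_of_add_eq_zero_left h.symm).symm

theorem bd_sub (s d : E → V) (f g : E → Γ) (v : V) :
    bd s d (f - g) v = bd s d f v - bd s d g v := by
  rw [sub_eq_add_neg, bd_add, bd_neg, sub_eq_add_neg]

theorem bd_dr {s d : E → V} {e : E} {x y : V} (h : Jn s d e x y) (hne : x ≠ y) (t : Γ) (v : V) :
    bd s d (Pi.single e (dr s e x t)) v = (if x = v then t else 0) - (if y = v then t else 0) := by
  rw [bd_single]
  unfold dr
  rcases h with ⟨h1, h2⟩ | ⟨h1, h2⟩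
  · rw [if_pos h1, h1, h2]
  · have hsx : s e ≠ x := by rw [h1]; exact hne.symm
    rw [if_neg hsx, h1, h2]
    by_cases h3 : y = v
    · have h4 : x ≠ v := fun h => hne (h.trans h3.symm)
      simp [h3, h4]
    · by_cases h4 : x = v
      · simp [h3, h4]
      · simp [h3, h4]

/-- adding `t` in the direction away from `x` -/
theorem dr_single (s : E → V) (f : E → Γ) (e : E) (x : V) (t : Γ) :
    dr s e x ((f + Pi.single e (dr s e x t) : E → Γ) e) = dr s e x (f e) + t := by
  rw [Pi.add_apply, Pi.single_eq_same, dr_add, dr_dr]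

theorem dr_mem {A : Γ → Prop} (hA : ∀ x, A x → A (-x)) (s : E → V) (e : E) (x : V) (t : Γ) :
    A (dr s e x t) ↔ A t := by
  unfold dr
  split_ifs
  · rfl
  · exact ⟨fun h => by have := hA _ h; rwa [neg_neg] at this, hA _⟩

/-- linear maps and the boundary -/
theorem bd_map {Δ : Type} [AddCommGroup Δ] (σ : Γ →+ Δ) (s d : E → V) (f : E → Γ) (v : V) :
    bd s d (fun e => σ (f e)) v = σ (bd s d f v) := by
  unfold bd
  rw [map_sum]
  refine sum_congr rfl fun e _ => ?_
  rw [map_sub]
  split_ifs <;> simp

theorem bd_eval (s d : E → V) (f : E → ℕ → ℤ) (i : ℕ) (v : V) :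
    bd s d (fun e => f e i) v = bd s d f v i :=
  bd_map (Pi.evalAddMonoidHom (fun _ : ℕ => ℤ) i) s d f v

theorem bd_smul (s d : E → V) (P : E → ℤ) (z : ℕ → ℤ) (v : V) :
    bd s d (fun e => P e • z) v = bd s d P v • z :=
  bd_map (Γ := ℤ) ((smulAddHom ℤ (ℕ → ℤ)).flip z) s d P v

/-- **A path from `x` to a sink.** -/
theorem extract (s d : E → V) : ∀ (n : ℕ) (H : E → ℤ), (∀ e, H e = 0 ∨ H e = 1 ∨ H e = -1) →
    (univ.filter fun e => H e ≠ 0).card = n → ∀ x, 0 < bd s d H x →
    ∃ (y : V) (P : E → ℤ), bd s d H y < 0 ∧ (∀ e, P e = 0 ∨ P e = H e) ∧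
      ∀ v, bd s d P v = (if x = v then 1 else 0) - (if y = v then 1 else 0) := by
  intro n
  induction n using Nat.strong_induction_on with
  | _ n ih =>
  intro H hH hn x hx
  obtain ⟨e, -, he⟩ := exists_lt_of_sum_lt (s := univ) (f := fun _ => (0 : ℤ))
    (g := fun e => (if s e = x then H e else 0) - (if d e = x then H e else 0))
    (by rw [sum_const_zero]; exact hx)
  -- the head of the arc
  obtain ⟨w, hxw, hj, hv⟩ : ∃ w, x ≠ w ∧ Jn s d e x w ∧ dr s e x (H e) = 1 := by
    by_cases h1 : s e = x
    · by_cases h2 : d e = x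
      · rw [if_pos h1, if_pos h2] at he
        simp at he
      · rw [if_pos h1, if_neg h2] at he
        refine ⟨d e, Ne.symm h2, Or.inl ⟨h1, rfl⟩, ?_⟩
        unfold dr
        rw [if_pos h1]
        rcases hH e with h | h | h
        · rw [h] at he; norm_num at he
        · exact h
        · rw [h] at he; norm_num at he
    · by_cases h2 : d e = x
      · rw [if_neg h1, if_pos h2] at he
        refine ⟨s e, Ne.symm h1, Or.inr ⟨rfl, h2⟩, ?_⟩
        unfold dr
        rw [if_neg h1]
        rcases hH e with h | h | h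
        · rw [h] at he; norm_num at he
        · rw [h] at he; norm_num at he
        · rw [h]; norm_num
      · rw [if_neg h1, if_neg h2] at he
        simp at he
  have hHe : H e = dr s e x 1 := by rw [← hv, dr_dr]
  have hHe0 : H e ≠ 0 := by
    rw [hHe]
    unfold dr
    split_ifs <;> norm_num
  by_cases hw : bd s d H w < 0
  · refine ⟨w, Pi.single e (dr s e x 1), hw, fun e' => ?_, fun v => bd_dr hj hxw 1 v⟩
    by_cases h : e' = e
    · subst h
      rw [Pi.single_eq_same]
      exact Or.inr hHe.symm
    · rw [Pi.single_eq_of_ne h]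
      exact Or.inl rfl
  · push Not at hw
    set H' : E → ℤ := H - Pi.single e (dr s e x 1) with hH'
    have hb : ∀ v, bd s d H' v = bd s d H v - ((if x = v then 1 else 0) - (if w = v then 1 else 0)) := by
      intro v
      rw [hH', bd_sub, bd_dr hj hxw]
    have he' : H' e = 0 := by
      rw [hH', Pi.sub_apply, Pi.single_eq_same, hHe, sub_self]
    have hne' : ∀ e', e' ≠ e → H' e' = H e' := by
      intro e' h
      rw [hH', Pi.sub_apply, Pi.single_eq_of_ne h, sub_zero]
    have hlt : (univ.filter fun e => H' e ≠ 0).card < n := by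
      rw [← hn]
      refine card_lt_card ⟨fun e' h => ?_, fun h => ?_⟩
      · rw [mem_filter] at h ⊢
        refine ⟨mem_univ _, ?_⟩
        by_cases h2 : e' = e
        · rw [h2]; exact hHe0
        · rw [← hne' e' h2]; exact h.2
      · have := h (mem_filter.2 ⟨mem_univ e, hHe0⟩)
        exact (mem_filter.1 this).2 he'
    obtain ⟨y, P, hy, hP, hbP⟩ := ih _ hlt H' (fun e' => by
      by_cases h2 : e' = e
      · rw [h2, he']; exact Or.inl rfl
      · rw [hne' e' h2]; exact hH e') rfl w (by
        rw [hb, if_neg hxw, if_pos rfl]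
        omega)
    have hyw : w ≠ y := by
      rintro rfl
      rw [hb, if_neg hxw, if_pos rfl] at hy
      omega
    have hyx : x ≠ y := by
      rintro rfl
      rw [hb, if_pos rfl, if_neg hyw] at hy
      omega
    refine ⟨y, P + Pi.single e (dr s e x 1), ?_, fun e' => ?_, fun v => ?_⟩
    · rw [hb, if_neg hyx, if_neg hyw] at hy
      omega
    · by_cases h : e' = e
      · subst h
        rw [Pi.add_apply, Pi.single_eq_same]
        have h0 : P e' = 0 := by
          rcases hP e' with h | h
          · exact h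
          · rw [h, he']
        rw [h0, zero_add]
        exact Or.inr hHe.symm
      · rw [Pi.add_apply, Pi.single_eq_of_ne h, add_zero, ← hne' e' h]
        exact hP e'
    · rw [bd_add, hbP, bd_dr hj hxw]
      ring

end Pool.Agent.Q253.OD
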