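import Pool.Agent.Q253.OD.Quad
import Pool.Agent.TH362.TF.Main
import Pool.Agent.TH362.TF.Contr

set_option autoImplicit false
set_option linter.unusedSectionVars false

/-! # Flows from nowhere-zero 4-flows and the Petersen graph -/

namespace Pool.Agent.Q253.OD

open Finset
open Pool.Agent.TH676.A (crs mem_crs Br nl mem_nl ctr lp MC crs_lp crs_ctr nl_lp nl_ctr_sub not_nl_ctr Nis)

variable {V E : Type} [Fintype V] [DecidableEq V] [Fintype E] [DecidableEq E]

/-! ### Orientations of even subgraphs -/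

theorem sum_bd (s d : E → V) (F : E → ℤ) : ∑ v, bd s d F v = 0 := by
  unfold bd
  rw [sum_comm]
  refine sum_eq_zero fun e _ => ?_
  rw [sum_sub_distrib]
  simp

theorem orient (s d : E → V) : ∀ (n : ℕ) (F : E → ℤ), (∀ e, F e = 0 ∨ F e = 1 ∨ F e = -1) →
    (∀ v, Even (bd s d F v)) → ∑ v, (bd s d F v).natAbs = n →
    ∃ F' : E → ℤ, (∀ v, bd s d F' v = 0) ∧ ∀ e, F' e = F e ∨ F' e = -(F e) := by
  intro n
  induction n using Nat.strong_induction_on with
  | _ n ih =>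
  intro F hF hev hn
  by_cases h0 : ∀ v, bd s d F v = 0
  · exact ⟨F, h0, fun e => Or.inl rfl⟩
  obtain ⟨x, hx⟩ : ∃ x, 0 < bd s d F x := by
    by_contra hc
    push Not at hc
    apply h0
    have := (sum_eq_zero_iff_of_nonpos (s := univ) fun v _ => hc v).1 (sum_bd s d F)
    exact fun v => this v (mem_univ v)
  obtain ⟨y, P, hy, hP, hbP⟩ := extract s d _ F hF rfl x hx
  have hxy : x ≠ y := by rintro rfl; omega
  set G : E → ℤ := F - P - P with hG
  have hb : ∀ v, bd s d G v = bd s d F v - 2 * ((if x = v then 1 else 0) - (if y = v then 1 else 0)) := by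
    intro v
    rw [hG, bd_sub, bd_sub, hbP]
    ring
  have hGe : ∀ e, G e = F e ∨ G e = -(F e) := by
    intro e
    rw [hG, Pi.sub_apply, Pi.sub_apply]
    rcases hP e with h | h
    · left; rw [h]; ring
    · right; rw [h]; ring
  have ex := hev x
  have ey := hev y
  have hlt : ∑ v, (bd s d G v).natAbs < n := by
    rw [← hn]
    refine sum_lt_sum (fun v _ => ?_) ⟨x, mem_univ x, ?_⟩
    · rw [hb]
      by_cases h1 : x = v
      · subst h1
        rw [if_pos rfl, if_neg hxy.symm]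
        obtain ⟨r, hr⟩ := ex
        omega
      · by_cases h2 : y = v
        · subst h2
          rw [if_neg h1, if_pos rfl]
          obtain ⟨r, hr⟩ := ey
          omega
        · rw [if_neg h1, if_neg h2]
          simp
    · rw [hb, if_pos rfl, if_neg hxy.symm]
      obtain ⟨r, hr⟩ := ex
      omega
  obtain ⟨F', h1, h2⟩ := ih _ hlt G (fun e => by
    rcases hGe e with h | h <;> rcases hF e with g | g | g <;> rw [h, g] <;> norm_num) (fun v => by
    rw [hb]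
    exact (hev v).sub (even_two_mul _)) rfl
  refine ⟨F', h1, fun e => ?_⟩
  rcases h2 e with h | h <;> rcases hGe e with g | g <;> rw [h, g]
  · exact Or.inl rfl
  · exact Or.inr rfl
  · exact Or.inr rfl
  · left; ring

/-- the orientation of the support of a flow with values in `ZMod 2` -/
theorem orient2 (s d : E → V) (g : E → ZMod 2)
    (hg : ∀ v, ∑ e, ((if s e = v then g e else 0) + (if d e = v then g e else 0)) = 0) :
    ∃ F : E → ℤ, (∀ v, bd s d F v = 0) ∧ (∀ e, g e = 0 → F e = 0) ∧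
      ∀ e, g e ≠ 0 → F e = 1 ∨ F e = -1 := by
  have h2 : ∀ a : ZMod 2, a = 0 ∨ a = 1 := by decide
  obtain ⟨F, h3, h4⟩ := orient s d _ (fun e => if g e = 0 then 0 else 1) (fun e => by
    by_cases h : g e = 0 <;> simp [h]) (fun v => by
    rw [← ZMod.intCast_eq_zero_iff_even]
    unfold bd
    rw [Int.cast_sum]
    refine Eq.trans (sum_congr rfl fun e _ => ?_) (hg v)
    rcases h2 (g e) with h | h
    · simp [h]
    · by_cases a : s e = v <;> by_cases b : d e = v <;> simp [h, a, b]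
      · decide) rfl
  refine ⟨F, h3, fun e he => ?_, fun e he => ?_⟩
  · rcases h4 e with h | h <;> rw [h, if_pos he] <;> norm_num
  · rcases h4 e with h | h <;> rw [h, if_neg he]
    · exact Or.inl rfl
    · exact Or.inr rfl

/-! ### Four colours -/

theorem table {a b c : ℤ} (h : (a = 0 ∧ (b = 1 ∨ b = -1) ∧ (c = 1 ∨ c = -1)) ∨
    (b = 0 ∧ (a = 1 ∨ a = -1) ∧ (c = 1 ∨ c = -1)) ∨ (c = 0 ∧ (a = 1 ∨ a = -1) ∧ (b = 1 ∨ b = -1))) :
    ∃ r, Rt r ∧ r + r = a • (rt 0 2 + rt 1 3) + b • (rt 0 1 + rt 2 3) + c • (rt 0 1 + rt 3 2) := by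
  rcases h with ⟨rfl, rfl | rfl, rfl | rfl⟩ | ⟨rfl, rfl | rfl, rfl | rfl⟩ | ⟨rfl, rfl | rfl, rfl | rfl⟩
  · exact ⟨rt 0 1, Rt.of (by norm_num), by unfold rt; module⟩
  · exact ⟨rt 2 3, Rt.of (by norm_num), by unfold rt; module⟩
  · exact ⟨rt 3 2, Rt.of (by norm_num), by unfold rt; module⟩
  · exact ⟨rt 1 0, Rt.of (by norm_num), by unfold rt; module⟩
  · exact ⟨rt 0 2, Rt.of (by norm_num), by unfold rt; module⟩
  · exact ⟨rt 1 3, Rt.of (by norm_num), by unfold rt; module⟩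
  · exact ⟨rt 3 1, Rt.of (by norm_num), by unfold rt; module⟩
  · exact ⟨rt 2 0, Rt.of (by norm_num), by unfold rt; module⟩
  · exact ⟨rt 0 3, Rt.of (by norm_num), by unfold rt; module⟩
  · exact ⟨rt 1 2, Rt.of (by norm_num), by unfold rt; module⟩
  · exact ⟨rt 2 1, Rt.of (by norm_num), by unfold rt; module⟩
  · exact ⟨rt 3 0, Rt.of (by norm_num), by unfold rt; module⟩

theorem flow_of_nz {s d : E → V} (h : TH362.TF.NZ s d univ) : FlowOn Rt s d ∅ ∅ := by
  obtain ⟨f, h1, h2⟩ := h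
  have comp : ∀ φ : (ZMod 2 × ZMod 2) →+ ZMod 2, ∀ v,
      ∑ e, ((if s e = v then φ (f e) else 0) + (if d e = v then φ (f e) else 0)) = 0 := by
    intro φ v
    have h3 := congrArg φ (h2 v)
    rw [map_sum, map_zero] at h3
    refine Eq.trans (sum_congr rfl fun e _ => ?_) h3
    rw [map_add, apply_ite φ, apply_ite φ, map_zero]
  obtain ⟨A, a1, a2, a3⟩ := orient2 s d (fun e => (f e).1) (comp (AddMonoidHom.fst _ _))
  obtain ⟨B, b1, b2, b3⟩ := orient2 s d (fun e => (f e).2) (comp (AddMonoidHom.snd _ _))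
  obtain ⟨C, c1, c2, c3⟩ := orient2 s d (fun e => (f e).1 + (f e).2)
    (comp (AddMonoidHom.fst _ _ + AddMonoidHom.snd _ _))
  have key : ∀ e, ∃ r, Rt r ∧
      r + r = A e • (rt 0 2 + rt 1 3) + B e • (rt 0 1 + rt 2 3) + C e • (rt 0 1 + rt 3 2) := by
    intro e
    apply table
    have h4 : ∀ x : ZMod 2 × ZMod 2, x ≠ 0 → (x.1 = 0 ∧ x.2 ≠ 0 ∧ x.1 + x.2 ≠ 0) ∨
        (x.2 = 0 ∧ x.1 ≠ 0 ∧ x.1 + x.2 ≠ 0) ∨ (x.1 + x.2 = 0 ∧ x.1 ≠ 0 ∧ x.2 ≠ 0) := by decide
    rcases h4 _ (h1 e (mem_univ e)) with ⟨p, q, r⟩ | ⟨p, q, r⟩ | ⟨p, q, r⟩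
    · exact Or.inl ⟨a2 e p, b3 e q, c3 e r⟩
    · exact Or.inr (Or.inl ⟨b2 e p, a3 e q, c3 e r⟩)
    · exact Or.inr (Or.inr ⟨c2 e p, a3 e q, b3 e r⟩)
  choose r r1 r2 using key
  refine ⟨r, fun v => ?_, fun e he => absurd he (notMem_empty _), fun e _ _ => r1 e⟩
  have h5 : bd s d (r + r) v = 0 := by
    have : (r + r) = ((fun e => A e • (rt 0 2 + rt 1 3)) + fun e => B e • (rt 0 1 + rt 2 3)) +
        fun e => C e • (rt 0 1 + rt 3 2) := by
      funext e
      exact r2 e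
    rw [this, bd_add, bd_add, bd_smul, bd_smul, bd_smul, a1, b1, c1]
    simp
  rw [bd_add] at h5
  funext n
  have h6 := congrFun h5 n
  rw [Pi.add_apply] at h6
  rw [Pi.zero_apply] at h6 ⊢
  omega

/-! ### The Petersen graph -/

/-- the values on the three edges at a vertex -/
def tab (k : Fin 10) (j : Fin 3) : ℕ × ℕ :=
  match k, j with
  | 0, 0 => (0, 1) | 0, 1 => (1, 2) | 0, 2 => (2, 0)
  | 1, 0 => (0, 2) | 1, 1 => (1, 0) | 1, 2 => (2, 1)
  | 2, 0 => (0, 3) | 2, 1 => (2, 0) | 2, 2 => (3, 2)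
  | 3, 0 => (2, 3) | 3, 1 => (3, 0) | 3, 2 => (0, 2)
  | 4, 0 => (2, 1) | 4, 1 => (3, 2) | 4, 2 => (1, 3)
  | 5, 0 => (2, 4) | 5, 1 => (4, 0) | 5, 2 => (0, 2)
  | 6, 0 => (2, 4) | 6, 1 => (4, 1) | 6, 2 => (1, 2)
  | 7, 0 => (3, 4) | 7, 1 => (4, 2) | 7, 2 => (2, 3)
  | 8, 0 => (0, 4) | 8, 1 => (4, 2) | 8, 2 => (2, 0)
  | 9, 0 => (1, 4) | 9, 1 => (4, 3) | 9, 2 => (3, 1)

/-- the value in the direction from `k` to `l` -/
def W (k l : Fin 10) : ℕ × ℕ :=
  if TH362.TF.nb k 0 = l then tab k 0 else if TH362.TF.nb k 1 = l then tab k 1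
    else if TH362.TF.nb k 2 = l then tab k 2 else (0, 1)

theorem W_swap : ∀ k j, W (TH362.TF.nb k j) k = ((W k (TH362.TF.nb k j)).2, (W k (TH362.TF.nb k j)).1) := by
  decide

theorem W_ne : ∀ k l, (W k l).1 ≠ (W k l).2 := by decide

theorem W_sum (k : Fin 10) : rt (W k (TH362.TF.nb k 0)).1 (W k (TH362.TF.nb k 0)).2 +
    (rt (W k (TH362.TF.nb k 1)).1 (W k (TH362.TF.nb k 1)).2 +
      rt (W k (TH362.TF.nb k 2)).1 (W k (TH362.TF.nb k 2)).2) = 0 := by
  have h : ∀ k : Fin 10, ((W k (TH362.TF.nb k 0)).2 = (W k (TH362.TF.nb k 1)).1 ∧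
      (W k (TH362.TF.nb k 1)).2 = (W k (TH362.TF.nb k 2)).1 ∧
      (W k (TH362.TF.nb k 2)).2 = (W k (TH362.TF.nb k 0)).1) ∨
      ((W k (TH362.TF.nb k 0)).2 = (W k (TH362.TF.nb k 2)).1 ∧
      (W k (TH362.TF.nb k 2)).2 = (W k (TH362.TF.nb k 1)).1 ∧
      (W k (TH362.TF.nb k 1)).2 = (W k (TH362.TF.nb k 0)).1) := by decide
  rcases h k with ⟨a, b, c⟩ | ⟨a, b, c⟩
  · rw [a, b, c, rt_add, rt_add, rt_self]
  · rw [add_comm (rt (W k (TH362.TF.nb k 1)).1 _), a, b, c, rt_add, rt_add, rt_self]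

theorem bd_cut (s d : E → V) (f : E → ℕ → ℤ) (v : V) :
    bd s d f v = ∑ e ∈ crs s d {v}, dr s e v (f e) := by
  unfold bd crs
  rw [sum_filter]
  refine sum_congr rfl fun e _ => ?_
  unfold dr
  by_cases h1 : s e = v <;> by_cases h2 : d e = v <;> simp [h1, h2]

/-- **A minimal counterexample has no Petersen quotient.** -/
theorem no_pq {s d : E → V} (hM : MinCx Rt s d) (h : TH362.TF.PQ s d univ) : False := by
  obtain ⟨κ, hκ⟩ := h
  have hc : ∀ k : Fin 10, ∃ x : V, κ x = k ∧ Nis s d x := by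
    intro k
    obtain ⟨e, _, he⟩ := hκ.2 k (TH362.TF.nb k 0) (TH362.TF.Contr.padj_nb k 0)
    have h4 := TH362.TF.Contr.nb_ne k 0
    have hl : s e ≠ d e := by
      intro hl
      rcases he with ⟨a, b⟩ | ⟨a, b⟩
      · rw [hl, b] at a
        exact h4 a
      · rw [hl, b] at a
        exact h4 a.symm
    rcases he with ⟨a, b⟩ | ⟨a, b⟩
    · exact ⟨s e, a, e, hl, Or.inl rfl⟩
    · exact ⟨d e, b, e, hl, Or.inr rfl⟩
  choose c hcκ hcn using hc
  have hcut3 : ∀ k, (crs s d (univ.filter fun v => κ v = k)).card = 3 := by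
    intro k
    rw [← hκ.1 k]
    congr 1
    ext e
    rw [mem_crs]
    unfold TH362.TF.cut
    simp [decide_eq_decide]
  have huniq : ∀ x, Nis s d x → x = c (κ x) := by
    intro x hx
    by_contra hne
    obtain ⟨k, hk⟩ : ∃ k, κ x = k := ⟨_, rfl⟩
    rw [hk] at hne
    have h01 : ∀ k : Fin 10, k + 1 ≠ k ∧ k + 2 ≠ k ∧ k + 1 ≠ k + 2 := by decide
    obtain ⟨n1, n2, n3⟩ := h01 k
    have h4 := cut4 alg hM (Y := univ.filter fun v => κ v = k) (x := x) (x2 := c k)
      (y := c (k + 1)) (y2 := c (k + 2)) (by simpa using hk) (by simpa using hcκ k) hne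
      (by simpa [hcκ] using n1) (by simpa [hcκ] using n2)
      (fun hh => n3 (by rw [← hcκ (k + 1), ← hcκ (k + 2), hh])) hx (hcn _) (hcn _) (hcn _)
    rw [hcut3] at h4
    omega
  have hend : ∀ e, s e ≠ d e → s e = c (κ (s e)) ∧ d e = c (κ (d e)) :=
    fun e he => ⟨huniq _ ⟨e, he, Or.inl rfl⟩, huniq _ ⟨e, he, Or.inr rfl⟩⟩
  have hcc : ∀ k l, k ≠ l → c k ≠ c l := fun k l h hh => h (by rw [← hcκ k, ← hcκ l, hh])
  -- the edges
  have hE : ∀ k j, ∃ e, Jn s d e (c k) (c (TH362.TF.nb k j)) := by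
    intro k j
    obtain ⟨e, _, he⟩ := hκ.2 k (TH362.TF.nb k j) (TH362.TF.Contr.padj_nb k j)
    have h4 := TH362.TF.Contr.nb_ne k j
    have hl : s e ≠ d e := by
      intro hl
      rcases he with ⟨a, b⟩ | ⟨a, b⟩
      · rw [hl, b] at a
        exact h4 a
      · rw [hl, b] at a
        exact h4 a.symm
    obtain ⟨g1, g2⟩ := hend e hl
    refine ⟨e, ?_⟩
    rcases he with ⟨a, b⟩ | ⟨a, b⟩
    · rw [a] at g1; rw [b] at g2
      exact Or.inl ⟨g1, g2⟩
    · rw [a] at g1; rw [b] at g2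
      exact Or.inr ⟨g1, g2⟩
  choose ed hed using hE
  have hcr : ∀ k, crs s d {c k} = {ed k 0, ed k 1, ed k 2} := by
    intro k
    have hmem : ∀ j, ed k j ∈ crs s d {c k} := by
      intro j
      have h4 := hcc _ _ (TH362.TF.Contr.nb_ne k j)
      rw [mem_crs, mem_singleton, mem_singleton]
      rcases hed k j with ⟨a, b⟩ | ⟨a, b⟩ <;> rw [a, b] <;> simp [h4]
    have hinj : ∀ i j, i ≠ j → ed k i ≠ ed k j := by
      intro i j hij hh
      have h5 := hed k j
      rw [← hh] at h5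
      rcases (hed k i).eq h5 with ⟨-, a⟩ | ⟨a, -⟩
      · exact hcc _ _ (fun h6 => hij (TH362.TF.Contr.nb_inj k i j h6)) a
      · exact hcc _ _ (TH362.TF.Contr.nb_ne k j).symm a
    have hsub : ({ed k 0, ed k 1, ed k 2} : Finset E) ⊆ crs s d {c k} := by
      intro e he
      rw [mem_insert, mem_insert, mem_singleton] at he
      rcases he with rfl | rfl | rfl
      · exact hmem 0
      · exact hmem 1
      · exact hmem 2
    refine (eq_of_subset_of_card_le hsub ?_).symm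
    rw [card_eq_three.2 ⟨_, _, _, hinj 0 1 (by decide), hinj 0 2 (by decide), hinj 1 2 (by decide), rfl⟩,
      ← hcut3 k]
    refine card_le_card fun e he => ?_
    have hl : s e ≠ d e := fun h' => by rw [mem_crs, h'] at he; exact he Iff.rfl
    obtain ⟨g1, g2⟩ := hend e hl
    rw [mem_crs, mem_singleton, mem_singleton] at he
    rw [mem_crs, mem_filter, mem_filter]
    intro hiff
    apply he
    constructor
    · intro hs
      have h5 : κ (s e) = k := by rw [hs, hcκ]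
      have h6 := (hiff.1 ⟨mem_univ _, h5⟩).2
      rw [g2, h6]
    · intro hd
      have h5 : κ (d e) = k := by rw [hd, hcκ]
      have h6 := (hiff.2 ⟨mem_univ _, h5⟩).2
      rw [g1, h6]
  -- the flow
  set f : E → ℕ → ℤ := fun e => rt (W (κ (s e)) (κ (d e))).1 (W (κ (s e)) (κ (d e))).2 with hf
  have hval : ∀ k j, dr s (ed k j) (c k) (f (ed k j)) =
      rt (W k (TH362.TF.nb k j)).1 (W k (TH362.TF.nb k j)).2 := by
    intro k j
    have h4 := hcc _ _ (TH362.TF.Contr.nb_ne k j)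
    rcases hed k j with ⟨a, b⟩ | ⟨a, b⟩
    · unfold dr
      rw [if_pos a, hf]
      beta_reduce
      rw [a, b, hcκ, hcκ]
    · unfold dr
      rw [if_neg (by rw [a]; exact h4), hf]
      beta_reduce
      rw [a, b, hcκ, hcκ, W_swap, rt_neg]
  refine hM.nf ⟨f, fun v => ?_, fun e he => absurd he (notMem_empty _), fun e _ _ => Rt.of (W_ne _ _)⟩
  rw [bd_cut]
  by_cases hv : Nis s d v
  · obtain ⟨k, hk⟩ : ∃ k, v = c k := ⟨_, huniq v hv⟩
    subst hk
    have hinj : ∀ i j, i ≠ j → ed k i ≠ ed k j := by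
      intro i j hij hh
      have h5 := hed k j
      rw [← hh] at h5
      rcases (hed k i).eq h5 with ⟨-, a⟩ | ⟨a, -⟩
      · exact hcc _ _ (fun h6 => hij (TH362.TF.Contr.nb_inj k i j h6)) a
      · exact hcc _ _ (TH362.TF.Contr.nb_ne k j).symm a
    rw [hcr, sum_insert (by
      rw [mem_insert, mem_singleton, not_or]
      exact ⟨hinj 0 1 (by decide), hinj 0 2 (by decide)⟩), sum_pair (hinj 1 2 (by decide)),
      hval, hval, hval, W_sum]
  · refine sum_eq_zero fun e he => ?_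
    exfalso
    apply hv
    have hl : s e ≠ d e := fun h' => by rw [mem_crs, h'] at he; exact he Iff.rfl
    rw [mem_crs, mem_singleton, mem_singleton] at he
    exact ⟨e, hl, by tauto⟩

end Pool.Agent.Q253.OD
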