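import Pool.Agent.Q253.OD.Quad
import Pool.Agent.Q253.OD.Pet
import Pool.Agent.Q253.M8.BF

/-!
# Oriented cycle double covers as flows: matching number at most eight
-/

set_option autoImplicit false
set_option linter.unusedSectionVars false

namespace Pool.Agent.Q253.OD

open Finset
open Pool.Agent.TH676.A (crs mem_crs Br nl mem_nl ctr lp MC crs_lp crs_ctr nl_lp nl_ctr_sub not_nl_ctr Nis)
open Pool.Agent.Q253.M8
open Pool.Agent.TH499.TF (Joins)
open Pool.Agent.Q253.VC (gr deg_inc inc mem_inc)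
open Pool.Agent.Q253.M8.BF (mc_mt nisL n1)

variable {V E : Type} [Fintype V] [DecidableEq V] [Fintype E] [DecidableEq E]

/-- **There is no cut vertex.** -/
theorem nocut {Γ : Type} [AddCommGroup Γ] {A : Γ → Prop} {s d : E → V} (h : MinCx A s d) {w : V} {O : Finset V} (_hw : w ∉ O)
    (hcl : ∀ e, s e ≠ d e → (s e ∈ O → d e ∈ O ∨ d e = w) ∧ (d e ∈ O → s e ∈ O ∨ s e = w))
    {e1 e2 : E} (he1 : s e1 ≠ d e1) (h1 : s e1 ∈ O ∨ d e1 ∈ O) (he2 : s e2 ≠ d e2)
    (h2 : s e2 ∉ O) (h2' : d e2 ∉ O) : False := by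
  set D1 : Finset E := univ.filter fun e => s e ∈ O ∨ d e ∈ O with hD1
  set D2 : Finset E := univ.filter fun e => ¬ (s e ∈ O ∨ d e ∈ O) with hD2
  have m1 : ∀ e, e ∈ D1 ↔ (s e ∈ O ∨ d e ∈ O) := fun e => by rw [hD1]; simp
  have m2 : ∀ e, e ∈ D2 ↔ ¬ (s e ∈ O ∨ d e ∈ O) := fun e => by rw [hD2]; simp
  have b2 : Br s d D2 ∅ := by
    intro Y _ hc
    refine h.br ((Y ∩ O) ∪ (if w ∈ Y then univ \ O else ∅)) (disjoint_empty_right _) ?_
    rw [sdiff_empty, ← hc]
    congr 1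
    ext e
    rw [mem_sdiff, mem_crs, mem_crs, m2]
    have hin : ∀ x, x ∈ O → (x ∈ (Y ∩ O) ∪ (if w ∈ Y then univ \ O else ∅) ↔ x ∈ Y) := by
      intro x hx
      by_cases hwY : w ∈ Y <;> simp [hwY, hx]
    have hout : ∀ x, x ∉ O → (x ∈ (Y ∩ O) ∪ (if w ∈ Y then univ \ O else ∅) ↔ w ∈ Y) := by
      intro x hx
      by_cases hwY : w ∈ Y <;> simp [hwY, hx]
    by_cases hl : s e = d e
    · rw [hl]
      simp
    · obtain ⟨c1, c2⟩ := hcl e hl
      by_cases hs : s e ∈ O <;> by_cases hd : d e ∈ O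
      · rw [hin _ hs, hin _ hd]
        simp [hs]
      · rw [hin _ hs, hout _ hd, (c1 hs).resolve_left hd]
        simp [hs]
      · rw [hout _ hs, hin _ hd, (c2 hd).resolve_left hs]
        simp [hd]
      · rw [hout _ hs, hout _ hd]
        simp [hs, hd]
  have b1 : Br s d D1 ∅ := by
    intro Y _ hc
    refine h.br ((Y \ O) ∪ (if w ∈ Y then O else ∅)) (disjoint_empty_right _) ?_
    rw [sdiff_empty, ← hc]
    congr 1
    ext e
    rw [mem_sdiff, mem_crs, mem_crs, m1]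
    have hin : ∀ x, x ∈ O → (x ∈ (Y \ O) ∪ (if w ∈ Y then O else ∅) ↔ w ∈ Y) := by
      intro x hx
      by_cases hwY : w ∈ Y <;> simp [hwY, hx]
    have hout : ∀ x, x ∉ O → (x ∈ (Y \ O) ∪ (if w ∈ Y then O else ∅) ↔ x ∈ Y) := by
      intro x hx
      by_cases hwY : w ∈ Y <;> simp [hwY, hx]
    by_cases hl : s e = d e
    · rw [hl]
      simp
    · obtain ⟨c1, c2⟩ := hcl e hl
      by_cases hs : s e ∈ O <;> by_cases hd : d e ∈ O
      · rw [hin _ hs, hin _ hd]
        simp [hs]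
      · rw [hin _ hs, hout _ hd, (c1 hs).resolve_left hd]
        simp [hs]
      · rw [hout _ hs, hin _ hd, (c2 hd).resolve_left hs]
        simp [hd]
      · rw [hout _ hs, hout _ hd]
        simp [hs, hd]
  obtain ⟨f1, a1, z1, n1⟩ := h.crit D2 ∅ (disjoint_empty_right _)
    ⟨e2, by rw [union_empty, m2]; tauto, he2⟩ b2
  obtain ⟨f2, a2, z2, n2⟩ := h.crit D1 ∅ (disjoint_empty_right _)
    ⟨e1, by rw [union_empty, m1]; exact h1, he1⟩ b1
  refine h.nf ⟨f1 + f2, fun v => ?_, fun e he => absurd he (notMem_empty _), fun e _ _ => ?_⟩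
  · rw [bd_add, a1, a2, add_zero]
  · by_cases he : s e ∈ O ∨ d e ∈ O
    · rw [Pi.add_apply, z2 e ((m1 e).2 he), add_zero]
      exact n1 e (fun h' => (m2 e).1 h' he) (notMem_empty _)
    · rw [Pi.add_apply, z1 e ((m2 e).2 he), zero_add]
      exact n2 e (fun h' => he ((m1 e).1 h')) (notMem_empty _)

theorem smp {s d : E → V} (h : MinCx Rt s d) : Pool.Agent.TH395.P5.Smp s d := by
  intro e e' x y hne h1 h2
  by_contra he
  exact par h hne he h1 h2

theorem dat {s d : E → V} (hM : MinCx Rt s d) : Dat (gr s d) (ni s d) where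
  mem := fun x y h => mem_ni.2 ⟨y, h⟩
  three := by
    intro x hx
    obtain ⟨y, hne, e, he⟩ := mem_ni.1 hx
    have hS := smp hM
    have h0 := deg_inc hS x
    rw [SimpleGraph.card_neighborFinset_eq_degree, h0]
    have h1 := cut3 alg hM (Y := {x}) (mem_singleton_self x) (y := y)
      (by simpa using hne.symm) (nisL he hne) (nisL (Or.symm he) hne.symm)
    refine h1.trans (card_le_card fun e' he' => ?_)
    rw [mem_crs, mem_singleton, mem_singleton] at he'
    rw [mem_inc]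
    refine ⟨fun h => he' (by rw [h]), ?_⟩
    tauto
  tri := by
    rintro a b c ⟨h1, e1⟩ ⟨h2, e2⟩ ⟨h3, e3⟩
    obtain ⟨_, e1⟩ := e1
    exact tri hM h1 h2 h3 e1 (Exists.choose_spec e2) (Exists.choose_spec e3)
  quad := by
    rintro a b c q hac hbq ⟨h1, e1⟩ ⟨h2, e2⟩ ⟨h3, e3⟩ ⟨h4, e4⟩
    exact quad hM ⟨h1, hac, h4.symm, h2, hbq, h3, Exists.choose_spec e1, Exists.choose_spec e2,
      Exists.choose_spec e3, Exists.choose_spec e4⟩
  conn := by
    rintro O hOT ⟨x, hx⟩ ⟨z, hz⟩ hcl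
    obtain ⟨hz, hzO⟩ := mem_sdiff.1 hz
    obtain ⟨y, hne, e, he⟩ := mem_ni.1 (hOT hx)
    obtain ⟨y', hne', e', he'⟩ := mem_ni.1 hz
    have h1 := cut3 alg hM (Y := O) hx hzO (nisL he hne) (nisL he' hne')
    have h2 : crs s d O = ∅ := by
      rw [eq_empty_iff_forall_notMem]
      intro f hf
      rw [mem_crs] at hf
      have hl : s f ≠ d f := fun hl => hf (by rw [hl])
      apply hf
      constructor
      · intro h3
        exact hcl _ h3 _ ⟨hl, f, Or.inl ⟨rfl, rfl⟩⟩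
      · intro h3
        exact hcl _ h3 _ ⟨hl.symm, f, Or.inr ⟨rfl, rfl⟩⟩
    rw [h2, card_empty] at h1
    omega
  cutv := by
    rintro w O hOT hw ⟨x, hx⟩ ⟨z, hz⟩ hcl
    obtain ⟨hzw, hz⟩ := mem_erase.1 hz
    obtain ⟨hz, hzO⟩ := mem_sdiff.1 hz
    obtain ⟨y, hne, e, he⟩ := mem_ni.1 (hOT hx)
    obtain ⟨y', hne', e', he'⟩ := mem_ni.1 hz
    have hy' : y' ∉ O := by
      intro h3
      rcases hcl y' h3 z ⟨hne'.symm, e', Or.symm he'⟩ with h4 | h4
      · exact hzO h4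
      · exact hzw h4
    refine nocut hM hw ?_ (e1 := e) (e2 := e') ?_ ?_ ?_ ?_ ?_
    · intro f hf
      exact ⟨fun h3 => hcl _ h3 _ ⟨hf, f, Or.inl ⟨rfl, rfl⟩⟩,
        fun h3 => hcl _ h3 _ ⟨hf.symm, f, Or.inr ⟨rfl, rfl⟩⟩⟩
    · rcases he with ⟨a, b⟩ | ⟨a, b⟩ <;> rw [a, b]
      · exact hne
      · exact hne.symm
    · rcases he with ⟨a, b⟩ | ⟨a, b⟩
      · rw [a]; exact Or.inl hx
      · rw [b]; exact Or.inr hx
    · rcases he' with ⟨a, b⟩ | ⟨a, b⟩ <;> rw [a, b]
      · exact hne'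
      · exact hne'.symm
    · rcases he' with ⟨a, b⟩ | ⟨a, b⟩ <;> rw [a]
      · exact hzO
      · exact hy'
    · rcases he' with ⟨a, b⟩ | ⟨a, b⟩ <;> rw [b]
      · exact hy'
      · exact hzO

/-- **Main theorem.** -/
theorem flow_of_mt (s d : E → V) (hb : Br s d ∅ ∅) (hc : Mt s d) :
    FlowOn Rt s d ∅ ∅ := by
  classical
  by_contra hn
  obtain ⟨s', d', hm', hM⟩ := exists_minCx mc_mt s d hc hb hn
  have hS := smp hM
  by_cases h : (univ.filter fun v => Odd ((gr s' d').degree v)).card ≤ 16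
  · have h1 := n1 hM.br
    rcases TH362.TF.main16 s' d' univ h1 (by
        refine le_trans (card_le_card fun v hv => ?_) h
        have := (mem_filter.1 hv).2
        exact mem_filter.2 ⟨mem_univ _, (VC.odd_deg hS v).1 this⟩) with h2 | h2
    · exact hM.nf (flow_of_nz h2)
    · exact no_pq hM h2
  push Not at h
  have hn : 18 ≤ (ni s' d').card := by
    have h1 : Even (univ.filter fun v => Odd ((gr s' d').degree v)).card :=
      (gr s' d').even_card_odd_degree_vertices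
    have h2 : (univ.filter fun v => Odd ((gr s' d').degree v)).card ≤ (ni s' d').card := by
      refine card_le_card fun v hv => ?_
      obtain ⟨y, hy⟩ := VC.odd_pos (mem_filter.1 hv).2
      exact mem_ni.2 ⟨y, hy⟩
    rw [Nat.even_iff] at h1
    omega
  obtain ⟨W, m, hW, hm⟩ := (dat hM).main hn
  have he : ∀ x, ∃ e, x ∈ W → Joins s' d' e x (m x) := by
    intro x
    by_cases hx : x ∈ W
    · obtain ⟨_, e, he⟩ := (hm x hx).2.2
      exact ⟨e, fun _ => he⟩
    · obtain ⟨x0, hx0⟩ : W.Nonempty := by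
        rw [← card_pos]
        omega
      obtain ⟨_, e, he⟩ := (hm x0 hx0).2.2
      exact ⟨e, fun h => absurd h hx⟩
  choose g hg using he
  have hne : ∀ x ∈ W, x ≠ m x := fun x hx => (hm x hx).2.2.ne
  -- the edge determines the pair
  have hends : ∀ x ∈ W, ∀ e, g x = e → (s' e = x ∧ d' e = m x) ∨ (s' e = m x ∧ d' e = x) := by
    rintro x hx e rfl
    exact hg x hx
  have huniq : ∀ x ∈ W, ∀ y ∈ W, (y = x ∨ y = m x) → g x = g y := by
    intro x hx y hy hxy
    have h1 := hg x hx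
    have h2 := hg y hy
    rcases hxy with rfl | rfl
    · rfl
    · rw [(hm x hx).2.1] at h2
      exact hS _ _ _ _ (hne x hx) h1 (Or.symm h2)
  have hcard : 18 ≤ 2 * (W.image g).card := by
    refine hW.trans ?_
    refine card_le_mul_card_image W 2 fun e he => ?_
    obtain ⟨x, hx, hxe⟩ := mem_image.1 he
    refine (card_le_card (t := {x, m x}) fun y hy => ?_).trans card_le_two
    obtain ⟨hy, hye⟩ := mem_filter.1 hy
    have h1 := hends x hx e hxe
    have h2 := hends y hy e hye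
    rw [mem_insert, mem_singleton]
    rcases h1 with ⟨a1, a2⟩ | ⟨a1, a2⟩ <;> rcases h2 with ⟨b1, b2⟩ | ⟨b1, b2⟩
    · exact Or.inl (b1.symm.trans a1)
    · exact Or.inr (b2.symm.trans a2)
    · exact Or.inr (b1.symm.trans a1)
    · exact Or.inl (b2.symm.trans a2)
  have h8 := hm' (W.image g) ?_ ?_
  · omega
  · intro e he
    obtain ⟨x, hx, hxe⟩ := mem_image.1 he
    rcases hends x hx e hxe with ⟨a, b⟩ | ⟨a, b⟩ <;> rw [a, b]
    · exact hne x hx
    · exact (hne x hx).symm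
  · intro e he f hf hef
    obtain ⟨x, hx, hxe⟩ := mem_image.1 he
    obtain ⟨y, hy, hyf⟩ := mem_image.1 hf
    have k1 : x ≠ y := fun h => hef (by rw [← hxe, ← hyf, h])
    have k2 : x ≠ m y := by
      intro h
      exact hef (by rw [← hxe, ← hyf]; exact (huniq y hy x hx (Or.inr h)).symm)
    have k3 : m x ≠ y := by
      intro h
      exact hef (by rw [← hxe, ← hyf]; exact huniq x hx y hy (Or.inr h.symm))
    have k4 : m x ≠ m y := by
      intro h
      have := congrArg m h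
      rw [(hm x hx).2.1, (hm y hy).2.1] at this
      exact k1 this
    rcases hends x hx e hxe with ⟨a1, a2⟩ | ⟨a1, a2⟩ <;>
      rcases hends y hy f hyf with ⟨b1, b2⟩ | ⟨b1, b2⟩ <;> rw [a1, a2, b1, b2]
    · exact ⟨k1, k2, k3, k4⟩
    · exact ⟨k2, k1, k4, k3⟩
    · exact ⟨k3, k4, k1, k2⟩
    · exact ⟨k4, k3, k2, k1⟩

end Pool.Agent.Q253.OD
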