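import Pool.Agent.Q253.OD.Ext

set_option autoImplicit false
set_option linter.unusedSectionVars false

/-! # Circuits of length two, three and four are reducible -/

namespace Pool.Agent.Q253.OD

open Finset
open Pool.Agent.TH676.A (crs mem_crs Br nl mem_nl ctr lp MC crs_lp crs_ctr nl_lp nl_ctr_sub not_nl_ctr Nis)

variable {V E : Type} [Fintype V] [DecidableEq V] [Fintype E] [DecidableEq E]

theorem Jn.eq {s d : E → V} {e : E} {x y z w : V} (h : Jn s d e x y) (h' : Jn s d e z w) :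
    (x = z ∧ y = w) ∨ (x = w ∧ y = z) := by
  rcases h with ⟨a, b⟩ | ⟨a, b⟩ <;> rcases h' with ⟨a', b'⟩ | ⟨a', b'⟩
  · exact Or.inl ⟨a.symm.trans a', b.symm.trans b'⟩
  · exact Or.inr ⟨a.symm.trans a', b.symm.trans b'⟩
  · exact Or.inr ⟨b.symm.trans b', a.symm.trans a'⟩
  · exact Or.inl ⟨b.symm.trans b', a.symm.trans a'⟩

theorem Jn.prop {s d : E → V} {e : E} {x y : V} (h : Jn s d e x y) (hne : x ≠ y) : s e ≠ d e := by
  rcases h with ⟨a, b⟩ | ⟨a, b⟩
  · rw [a, b]; exact hne
  · rw [a, b]; exact hne.symm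

theorem Jn.nis {s d : E → V} {e : E} {x y : V} (h : Jn s d e x y) (hne : x ≠ y) : Nis s d x := by
  refine ⟨e, h.prop hne, ?_⟩
  rcases h with ⟨a, b⟩ | ⟨a, b⟩
  · exact Or.inl a
  · exact Or.inr b

/-- adding `t` on `e` in the direction away from `x` -/
def upd (s : E → V) (f : E → ℕ → ℤ) (e : E) (x : V) (t : ℕ → ℤ) : E → ℕ → ℤ :=
  f + Pi.single e (dr s e x t)

theorem upd_ne (s : E → V) (f : E → ℕ → ℤ) {e e' : E} (x : V) (t : ℕ → ℤ) (h : e' ≠ e) :
    upd s f e x t e' = f e' := by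
  unfold upd
  rw [Pi.add_apply, Pi.single_eq_of_ne h, add_zero]

theorem upd_self (s : E → V) (f : E → ℕ → ℤ) (e : E) (x : V) (t : ℕ → ℤ) :
    dr s e x (upd s f e x t e) = dr s e x (f e) + t := dr_single s f e x t

theorem upd_mem (s : E → V) (f : E → ℕ → ℤ) {e : E} {x : V} {t z : ℕ → ℤ}
    (hz : dr s e x (f e) = z) (h : Rt (z + t)) : Rt (upd s f e x t e) := by
  rw [← dr_mem (A := Rt) alg.neg s e x, upd_self, hz]
  exact h

theorem upd_bd {s d : E → V} (f : E → ℕ → ℤ) {e : E} {x y : V} (h : Jn s d e x y) (hne : x ≠ y)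
    (t : ℕ → ℤ) (v : V) : bd s d (upd s f e x t) v =
      bd s d f v + ((if x = v then t else 0) - (if y = v then t else 0)) := by
  unfold upd
  rw [bd_add, bd_dr h hne]

theorem dr_zero (s : E → V) (e : E) (x : V) : dr s e x (0 : ℕ → ℤ) = 0 := by
  unfold dr
  split_ifs
  · rfl
  · exact neg_zero

theorem dr_apply (s : E → V) (e : E) (x : V) (z : ℕ → ℤ) (i : ℕ) :
    dr s e x z i = dr s e x (z i) := by
  unfold dr
  split_ifs
  · rfl
  · rfl

/-! ### cuts -/

theorem ge3 {s d : E → V} (h : MinCx Rt s d) {Y : Finset V} {e : E} (he : e ∈ crs s d Y) :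
    3 ≤ (crs s d Y).card := by
  have hne : s e ≠ d e := fun h' => by rw [mem_crs, h'] at he; exact he Iff.rfl
  rw [mem_crs] at he
  have n1 : Nis s d (s e) := ⟨e, hne, Or.inl rfl⟩
  have n2 : Nis s d (d e) := ⟨e, hne, Or.inr rfl⟩
  by_cases hs : s e ∈ Y
  · exact cut3 alg h hs (fun hd => he ⟨fun _ => hd, fun _ => hs⟩) n1 n2
  · exact cut3 alg h (by tauto) hs n2 n1

/-- a cut with three edges is the star of a vertex -/
theorem star {s d : E → V} (h : MinCx Rt s d) {Y : Finset V} (h3 : (crs s d Y).card = 3) :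
    ∃ w, crs s d {w} = crs s d Y := by
  have key : (∃ w, ∀ x ∈ Y, Nis s d x → x = w) ∨ ∃ w, ∀ x, x ∉ Y → Nis s d x → x = w := by
    by_contra hc
    push Not at hc
    obtain ⟨c1, c2⟩ := hc
    obtain ⟨e, he⟩ : (crs s d Y).Nonempty := by
      rw [← card_pos]; omega
    obtain ⟨x, hx, nx, -⟩ := c1 (s e)
    obtain ⟨x2, hx2, nx2, hxx⟩ := c1 x
    obtain ⟨y, hy, ny, -⟩ := c2 (s e)
    obtain ⟨y2, hy2, ny2, hyy⟩ := c2 y
    have := cut4 alg h hx hx2 hxx.symm hy hy2 hyy.symm nx nx2 ny ny2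
    omega
  have hnis : ∀ e, s e ≠ d e → Nis s d (s e) ∧ Nis s d (d e) := fun e he =>
    ⟨⟨e, he, Or.inl rfl⟩, ⟨e, he, Or.inr rfl⟩⟩
  have hpr : ∀ Z : Finset V, ∀ e ∈ crs s d Z, s e ≠ d e := fun Z e he h' => by
    rw [mem_crs, h'] at he; exact he Iff.rfl
  rcases key with ⟨w, hw⟩ | ⟨w, hw⟩
  · refine ⟨w, ?_⟩
    have hwY : w ∈ Y := by
      obtain ⟨e, he⟩ : (crs s d Y).Nonempty := by
        rw [← card_pos]; omega
      obtain ⟨n1, n2⟩ := hnis e (hpr _ e he)
      rw [mem_crs] at he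
      by_cases hs : s e ∈ Y
      · rw [← hw _ hs n1]; exact hs
      · have hd : d e ∈ Y := by tauto
        rw [← hw _ hd n2]; exact hd
    ext e
    constructor
    · intro he
      obtain ⟨n1, n2⟩ := hnis e (hpr _ e he)
      rw [mem_crs, mem_singleton, mem_singleton] at he
      rw [mem_crs]
      intro hiff
      apply he
      by_cases hs : s e ∈ Y
      · rw [hw _ hs n1, hw _ (hiff.1 hs) n2]
      · have hd : d e ∉ Y := fun hd => hs (hiff.2 hd)
        exact ⟨fun h1 => absurd (h1 ▸ hwY) hs, fun h1 => absurd (h1 ▸ hwY) hd⟩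
    · intro he
      obtain ⟨n1, n2⟩ := hnis e (hpr _ e he)
      rw [mem_crs] at he
      rw [mem_crs, mem_singleton, mem_singleton]
      intro hiff
      apply he
      constructor
      · intro hs
        have h1 := hw _ hs n1
        rw [hiff.1 h1]; exact hwY
      · intro hd
        have h1 := hw _ hd n2
        rw [hiff.2 h1]; exact hwY
  · refine ⟨w, ?_⟩
    have hwY : w ∉ Y := by
      obtain ⟨e, he⟩ : (crs s d Y).Nonempty := by
        rw [← card_pos]; omega
      obtain ⟨n1, n2⟩ := hnis e (hpr _ e he)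
      rw [mem_crs] at he
      by_cases hs : s e ∈ Y
      · have hd : d e ∉ Y := by tauto
        rw [← hw _ hd n2]; exact hd
      · rw [← hw _ hs n1]; exact hs
    ext e
    constructor
    · intro he
      obtain ⟨n1, n2⟩ := hnis e (hpr _ e he)
      rw [mem_crs, mem_singleton, mem_singleton] at he
      rw [mem_crs]
      intro hiff
      apply he
      by_cases hs : s e ∈ Y
      · have hd : d e ∈ Y := hiff.1 hs
        exact ⟨fun h1 => absurd hs (h1 ▸ hwY), fun h1 => absurd hd (h1 ▸ hwY)⟩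
      · have hd : d e ∉ Y := fun hd => hs (hiff.2 hd)
        rw [hw _ hs n1, hw _ hd n2]
    · intro he
      obtain ⟨n1, n2⟩ := hnis e (hpr _ e he)
      rw [mem_crs] at he
      rw [mem_crs, mem_singleton, mem_singleton]
      intro hiff
      apply he
      constructor
      · intro hs
        by_contra hd
        have h1 := hw _ hd n2
        exact hwY (by rw [← hiff.2 h1]; exact hs)
      · intro hd
        by_contra hs
        have h1 := hw _ hs n1
        exact hwY (by rw [← hiff.1 h1]; exact hd)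

theorem card_aux {s d : E → V} (h : MinCx Rt s d) {Y : Finset V} {D : Finset E}
    (h1 : (crs s d Y \ D).card = 1) : 3 ≤ (crs s d Y).card ∧
      (crs s d Y).card = 1 + (crs s d Y ∩ D).card := by
  constructor
  · obtain ⟨e, he⟩ : (crs s d Y \ D).Nonempty := by rw [← card_pos]; omega
    exact ge3 h (mem_sdiff.1 he).1
  · have := card_sdiff_add_card_inter (crs s d Y) D
    omega

theorem br_one {s d : E → V} (h : MinCx Rt s d) (e : E) : Br s d {e} ∅ := by
  intro Y _ h1
  obtain ⟨h2, h3⟩ := card_aux h h1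
  have h4 : (crs s d Y ∩ {e}).card ≤ ({e} : Finset E).card := card_le_card inter_subset_right
  rw [card_singleton] at h4
  omega

/-- **No parallel edges.** -/
theorem par {s d : E → V} (h : MinCx Rt s d) {e1 e2 : E} {x y : V} (hne : x ≠ y) (he : e1 ≠ e2)
    (h1 : Jn s d e1 x y) (h2 : Jn s d e2 x y) : False := by
  obtain ⟨f, hf, hf1, hf2⟩ := h.crit {e1} ∅ (disjoint_empty_right _)
    ⟨e1, by simp, h1.prop hne⟩ (br_one h e1)
  have hA : ∀ e, e ≠ e1 → Rt (f e) := fun e he => hf2 e (by simpa using he) (notMem_empty _)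
  have ha : Rt (dr s e2 x (f e2)) := (dr_mem alg.neg s e2 x _).2 (hA e2 he.symm)
  obtain ⟨t, t1, t2, -⟩ := s3 ha ha (by
    intro h0
    obtain ⟨i, j, hij, hr⟩ := ha
    rw [hr] at h0
    have := congrFun h0 i
    rw [Pi.add_apply, rt_apply, if_pos rfl, if_neg hij] at this
    norm_num at this)
  refine h.nf ⟨upd s (upd s f e2 x t) e1 y t, fun v => ?_, fun e he => absurd he (notMem_empty _),
    fun e _ _ => ?_⟩
  · rw [upd_bd _ h1.symm hne.symm, upd_bd _ h2 hne, hf]
    abel
  · by_cases h3 : e = e1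
    · subst h3
      refine upd_mem s _ (z := 0) ?_ (by rwa [zero_add])
      rw [upd_ne s f x t he, hf1 e (mem_singleton_self _), dr_zero]
    · rw [upd_ne s _ y t h3]
      by_cases h4 : e = e2
      · subst h4
        exact upd_mem s f rfl t2
      · rw [upd_ne s f x t h4]
        exact hA e h3

/-- a triangle with a vertex of degree three -/
theorem tri3 {s d : E → V} (h : MinCx Rt s d) {e1 e2 e3 : E} {x y z : V} (hxy : x ≠ y)
    (hyz : y ≠ z) (hzx : z ≠ x) (h1 : Jn s d e1 x y) (h2 : Jn s d e2 y z) (h3 : Jn s d e3 z x)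
    (hdeg : (crs s d {x}).card = 3) : False := by
  have n12 : e1 ≠ e2 := by
    rintro rfl
    rcases h1.eq h2 with ⟨a, -⟩ | ⟨a, -⟩
    · exact hxy a
    · exact hzx a.symm
  have n23 : e2 ≠ e3 := by
    rintro rfl
    rcases h2.eq h3 with ⟨a, -⟩ | ⟨a, -⟩
    · exact hyz a
    · exact hxy a.symm
  have n13 : e1 ≠ e3 := by
    rintro rfl
    rcases h1.eq h3 with ⟨a, -⟩ | ⟨-, a⟩
    · exact hzx a.symm
    · exact hyz a
  obtain ⟨f, hf, hf1, hf2⟩ := h.crit {e2} ∅ (disjoint_empty_right _)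
    ⟨e2, by simp, h2.prop hyz⟩ (br_one h e2)
  have hA : ∀ e, e ≠ e2 → Rt (f e) := fun e he => hf2 e (by simpa using he) (notMem_empty _)
  have hf0 : f e2 = 0 := hf1 e2 (mem_singleton_self _)
  -- directions `y → x → z → y`
  have ha : Rt (dr s e1 y (f e1)) := (dr_mem alg.neg s e1 y _).2 (hA e1 n12)
  have hc : Rt (dr s e3 x (f e3)) := (dr_mem alg.neg s e3 x _).2 (hA e3 n23.symm)
  have hac : dr s e1 y (f e1) + dr s e3 x (f e3) ≠ 0 := by
    intro h0
    -- the third edge at `x`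
    have m1 : e1 ∈ crs s d {x} := by
      rw [mem_crs, mem_singleton, mem_singleton]
      rcases h1 with ⟨a, b⟩ | ⟨a, b⟩ <;> rw [a, b] <;> simp [hxy, hxy.symm]
    have m3 : e3 ∈ crs s d {x} := by
      rw [mem_crs, mem_singleton, mem_singleton]
      rcases h3 with ⟨a, b⟩ | ⟨a, b⟩ <;> rw [a, b] <;> simp [hzx, hzx.symm]
    have hsum := sum_cut (src := s) (Y := {x}) (fun v _ => hf v)
    obtain ⟨g, hg⟩ : ∃ g, (crs s d {x}).erase e1 = {e3, g} ∧ g ≠ e3 := by
      have c2 : (((crs s d {x}).erase e1).erase e3).card = 1 := by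
        rw [card_erase_of_mem (mem_erase.2 ⟨n13.symm, m3⟩), card_erase_of_mem m1, hdeg]
      obtain ⟨g, hg⟩ := card_eq_one.1 c2
      have hg' : g ∈ ((crs s d {x}).erase e1).erase e3 := by rw [hg]; simp
      refine ⟨g, ?_, (mem_erase.1 hg').1⟩
      rw [← insert_erase (mem_erase.2 ⟨n13.symm, m3⟩ : e3 ∈ (crs s d {x}).erase e1), hg]
    obtain ⟨hg1, hg2⟩ := hg
    rw [← add_sum_erase _ _ m1, hg1, sum_pair hg2.symm] at hsum
    have hgm : g ∈ (crs s d {x}).erase e1 := by rw [hg1]; simp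
    obtain ⟨hge1, hgx⟩ := mem_erase.1 hgm
    have hge2 : g ≠ e2 := by
      rintro rfl
      rw [mem_crs, mem_singleton, mem_singleton] at hgx
      rcases h2 with ⟨a, b⟩ | ⟨a, b⟩ <;> rw [a, b] at hgx <;> simp [hxy.symm, hzx] at hgx
    have hgA := hA g hge2
    have k1 : (if s e1 ∈ ({x} : Finset V) then f e1 else -f e1) = dr s e1 x (f e1) := by
      unfold dr; simp only [mem_singleton]
    have k3 : (if s e3 ∈ ({x} : Finset V) then f e3 else -f e3) = dr s e3 x (f e3) := by
      unfold dr; simp only [mem_singleton]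
    have k4 : (if s g ∈ ({x} : Finset V) then f g else -f g) = dr s g x (f g) := by
      unfold dr; simp only [mem_singleton]
    rw [k1, k3, k4] at hsum
    have k5 : dr s e1 x (f e1) = - dr s e1 y (f e1) := dr_rev h1.symm hxy.symm _
    rw [k5] at hsum
    set p := dr s e1 y (f e1) with hp
    have k6 : dr s e3 x (f e3) = -p := (neg_eq_of_add_eq_zero_right h0).symm
    rw [k6] at hsum
    have k7 : dr s g x (f g) = p + p := by
      have : dr s g x (f g) = (p + p) + (-p + (-p + dr s g x (f g))) := by abel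
      rw [this, hsum, add_zero]
    have k8 : Rt (p + p) := by
      rw [← k7]
      exact (dr_mem alg.neg s g x _).2 hgA
    obtain ⟨i, j, hij, hr⟩ := ha
    rcases k8.val i with h9 | h9 | h9 <;>
      rw [Pi.add_apply, hr, rt_apply, if_pos rfl, if_neg hij] at h9 <;> norm_num at h9
  obtain ⟨t, t1, t2, t3⟩ := s3 ha hc hac
  refine h.nf ⟨upd s (upd s (upd s f e1 y t) e3 x t) e2 z t, fun v => ?_,
    fun e he => absurd he (notMem_empty _), fun e _ _ => ?_⟩
  · rw [upd_bd _ h2.symm hyz.symm, upd_bd _ h3.symm hzx.symm, upd_bd _ h1.symm hxy.symm, hf]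
    abel
  · by_cases g2 : e = e2
    · subst g2
      refine upd_mem s _ (z := 0) ?_ (by rwa [zero_add])
      rw [upd_ne s _ x t n23, upd_ne s _ y t n12.symm, hf0, dr_zero]
    · rw [upd_ne s _ z t g2]
      by_cases g3 : e = e3
      · subst g3
        refine upd_mem s _ (z := dr s e x (f e)) ?_ t3
        rw [upd_ne s _ y t n13.symm]
      · rw [upd_ne s _ x t g3]
        by_cases g1 : e = e1
        · subst g1
          exact upd_mem s f rfl t2
        · rw [upd_ne s _ y t g1]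
          exact hA e g2

/-- **No triangles.** -/
theorem tri {s d : E → V} (h : MinCx Rt s d) {e1 e2 e3 : E} {x y z : V} (hxy : x ≠ y)
    (hyz : y ≠ z) (hzx : z ≠ x) (h1 : Jn s d e1 x y) (h2 : Jn s d e2 y z) (h3 : Jn s d e3 z x) :
    False := by
  have n12 : e1 ≠ e2 := by
    rintro rfl
    rcases h1.eq h2 with ⟨a, -⟩ | ⟨a, -⟩
    · exact hxy a
    · exact hzx a.symm
  have n23 : e2 ≠ e3 := by
    rintro rfl
    rcases h2.eq h3 with ⟨a, -⟩ | ⟨a, -⟩
    · exact hyz a
    · exact hxy a.symm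
  have n13 : e1 ≠ e3 := by
    rintro rfl
    rcases h1.eq h3 with ⟨a, -⟩ | ⟨-, a⟩
    · exact hzx a.symm
    · exact hyz a
  have dx : (crs s d {x}).card ≠ 3 := fun h' => tri3 h hxy hyz hzx h1 h2 h3 h'
  have dy : (crs s d {y}).card ≠ 3 := fun h' => tri3 h hyz hzx hxy h2 h3 h1 h'
  have dz : (crs s d {z}).card ≠ 3 := fun h' => tri3 h hzx hxy hyz h3 h1 h2 h'
  have hbr : Br s d {e1, e2, e3} ∅ := by
    intro Y _ hc
    obtain ⟨c1, c2⟩ := card_aux h hc
    have c3 : (crs s d Y ∩ {e1, e2, e3}).card ≤ 2 := by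
      by_contra hlt
      have hsub : (crs s d Y ∩ {e1, e2, e3}) = {e1, e2, e3} := by
        refine eq_of_subset_of_card_le inter_subset_right ?_
        have : ({e1, e2, e3} : Finset E).card ≤ 3 := card_le_three
        omega
      have m : ∀ e ∈ ({e1, e2, e3} : Finset E), e ∈ crs s d Y := fun e he => by
        rw [← hsub] at he
        exact (mem_inter.1 he).1
      have m1 := m e1 (by simp)
      have m2 := m e2 (by simp)
      have m3 := m e3 (by simp)
      rw [mem_crs] at m1 m2 m3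
      rcases h1 with ⟨a1, b1⟩ | ⟨a1, b1⟩ <;> rcases h2 with ⟨a2, b2⟩ | ⟨a2, b2⟩ <;>
      rcases h3 with ⟨a3, b3⟩ | ⟨a3, b3⟩ <;> rw [a1, b1] at m1 <;> rw [a2, b2] at m2 <;>
      rw [a3, b3] at m3 <;> tauto
    have c4 : (crs s d Y).card = 3 := by omega
    obtain ⟨w, hw⟩ := star h c4
    obtain ⟨e, he⟩ : (crs s d Y ∩ {e1, e2, e3}).Nonempty := by rw [← card_pos]; omega
    rw [mem_inter, ← hw, mem_crs, mem_singleton, mem_singleton] at he
    have hwe : w = x ∨ w = y ∨ w = z := by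
      obtain ⟨p, q⟩ := he
      have hjw : s e = w ∨ d e = w := by tauto
      rw [mem_insert, mem_insert, mem_singleton] at q
      rcases q with rfl | rfl | rfl
      · rcases h1 with ⟨a, b⟩ | ⟨a, b⟩ <;> rw [a, b] at hjw <;>
          rcases hjw with hh | hh <;> simp [hh]
      · rcases h2 with ⟨a, b⟩ | ⟨a, b⟩ <;> rw [a, b] at hjw <;>
          rcases hjw with hh | hh <;> simp [hh]
      · rcases h3 with ⟨a, b⟩ | ⟨a, b⟩ <;> rw [a, b] at hjw <;>
          rcases hjw with hh | hh <;> simp [hh]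
    rw [← hw] at c4
    rcases hwe with rfl | rfl | rfl
    · exact dx c4
    · exact dy c4
    · exact dz c4
  obtain ⟨f, hf, hf1, hf2⟩ := h.crit {e1, e2, e3} ∅ (disjoint_empty_right _)
    ⟨e1, by simp, h1.prop hxy⟩ hbr
  have t1 : Rt (rt 0 1) := Rt.of (by norm_num)
  set t := rt 0 1 with ht
  refine h.nf ⟨upd s (upd s (upd s f e1 x t) e2 y t) e3 z t, fun v => ?_,
    fun e he => absurd he (notMem_empty _), fun e _ _ => ?_⟩
  · rw [upd_bd _ h3 hzx, upd_bd _ h2 hyz, upd_bd _ h1 hxy, hf]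
    abel
  · by_cases g3 : e = e3
    · subst g3
      refine upd_mem s _ (z := 0) ?_ (by rwa [zero_add])
      rw [upd_ne s _ y t n23.symm, upd_ne s _ x t n13.symm, hf1 e (by simp), dr_zero]
    · rw [upd_ne s _ z t g3]
      by_cases g2 : e = e2
      · subst g2
        refine upd_mem s _ (z := 0) ?_ (by rwa [zero_add])
        rw [upd_ne s _ x t n12.symm, hf1 e (by simp), dr_zero]
      · rw [upd_ne s _ y t g2]
        by_cases g1 : e = e1
        · subst g1
          refine upd_mem s _ (z := 0) ?_ (by rwa [zero_add])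
          rw [hf1 e (by simp), dr_zero]
        · rw [upd_ne s _ x t g1]
          exact hf2 e (by simp [g1, g2, g3]) (notMem_empty _)

end Pool.Agent.Q253.OD
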