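import Pool.Agent.Q253.OD.Loc

set_option autoImplicit false
set_option linter.unusedSectionVars false

/-! # Circuits of length four are reducible -/

namespace Pool.Agent.Q253.OD

open Finset
open Pool.Agent.TH676.A (crs mem_crs Br nl mem_nl ctr lp MC crs_lp crs_ctr nl_lp nl_ctr_sub not_nl_ctr Nis)

variable {V E : Type} [Fintype V] [DecidableEq V] [Fintype E] [DecidableEq E]

/-- a circuit with four edges -/
structure Qd (s d : E → V) (x1 x2 x3 x4 : V) (e1 e2 e3 e4 : E) : Prop where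
  x12 : x1 ≠ x2
  x13 : x1 ≠ x3
  x14 : x1 ≠ x4
  x23 : x2 ≠ x3
  x24 : x2 ≠ x4
  x34 : x3 ≠ x4
  j1 : Jn s d e1 x1 x2
  j2 : Jn s d e2 x2 x3
  j3 : Jn s d e3 x3 x4
  j4 : Jn s d e4 x4 x1

theorem Qd.n12 {s d : E → V} {x1 x2 x3 x4 : V} {e1 e2 e3 e4 : E}
    (h : Qd s d x1 x2 x3 x4 e1 e2 e3 e4) : e1 ≠ e2 := by
  rintro rfl
  rcases h.j1.eq h.j2 with ⟨a, -⟩ | ⟨a, -⟩
  · exact h.x12 a
  · exact h.x13 a

theorem Qd.n13 {s d : E → V} {x1 x2 x3 x4 : V} {e1 e2 e3 e4 : E}
    (h : Qd s d x1 x2 x3 x4 e1 e2 e3 e4) : e1 ≠ e3 := by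
  rintro rfl
  rcases h.j1.eq h.j3 with ⟨a, -⟩ | ⟨a, -⟩
  · exact h.x13 a
  · exact h.x14 a

theorem Qd.n14 {s d : E → V} {x1 x2 x3 x4 : V} {e1 e2 e3 e4 : E}
    (h : Qd s d x1 x2 x3 x4 e1 e2 e3 e4) : e1 ≠ e4 := by
  rintro rfl
  rcases h.j1.eq h.j4 with ⟨a, -⟩ | ⟨-, a⟩
  · exact h.x14 a
  · exact h.x24 a

theorem Qd.n23 {s d : E → V} {x1 x2 x3 x4 : V} {e1 e2 e3 e4 : E}
    (h : Qd s d x1 x2 x3 x4 e1 e2 e3 e4) : e2 ≠ e3 := by
  rintro rfl
  rcases h.j2.eq h.j3 with ⟨a, -⟩ | ⟨a, -⟩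
  · exact h.x23 a
  · exact h.x24 a

theorem Qd.n24 {s d : E → V} {x1 x2 x3 x4 : V} {e1 e2 e3 e4 : E}
    (h : Qd s d x1 x2 x3 x4 e1 e2 e3 e4) : e2 ≠ e4 := by
  rintro rfl
  rcases h.j2.eq h.j4 with ⟨a, -⟩ | ⟨a, -⟩
  · exact h.x24 a
  · exact h.x12 a.symm

theorem Qd.n34 {s d : E → V} {x1 x2 x3 x4 : V} {e1 e2 e3 e4 : E}
    (h : Qd s d x1 x2 x3 x4 e1 e2 e3 e4) : e3 ≠ e4 := by
  rintro rfl
  rcases h.j3.eq h.j4 with ⟨a, -⟩ | ⟨a, -⟩
  · exact h.x34 a
  · exact h.x13 a.symm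

variable {s d : E → V} {x1 x2 x3 x4 : V} {e1 e2 e3 e4 : E}

/-- the first case: the values on the two edges are not opposite -/
theorem quad_ok (q : Qd s d x1 x2 x3 x4 e1 e2 e3 e4) (f : E → ℕ → ℤ) (hf : ∀ v, bd s d f v = 0)
    (f2 : f e2 = 0) (f4 : f e4 = 0) (hA : ∀ e, e ≠ e2 → e ≠ e4 → Rt (f e))
    (hne : dr s e1 x1 (f e1) + dr s e3 x3 (f e3) ≠ 0) : FlowOn Rt s d ∅ ∅ := by
  have ha : Rt (dr s e1 x1 (f e1)) := (dr_mem alg.neg s e1 x1 _).2 (hA e1 q.n12 q.n14)
  have hc : Rt (dr s e3 x3 (f e3)) := (dr_mem alg.neg s e3 x3 _).2 (hA e3 q.n23.symm q.n34)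
  obtain ⟨t, t1, t2, t3⟩ := s3 ha hc hne
  refine ⟨upd s (upd s (upd s (upd s f e1 x1 t) e3 x3 t) e2 x2 t) e4 x4 t, fun v => ?_,
    fun e he => absurd he (notMem_empty _), fun e _ _ => ?_⟩
  · rw [upd_bd _ q.j4 q.x14.symm, upd_bd _ q.j2 q.x23, upd_bd _ q.j3 q.x34, upd_bd _ q.j1 q.x12, hf]
    abel
  · by_cases g4 : e = e4
    · subst g4
      refine upd_mem s _ (z := 0) ?_ (by rwa [zero_add])
      rw [upd_ne s _ x2 t q.n24.symm, upd_ne s _ x3 t q.n34.symm, upd_ne s _ x1 t q.n14.symm, f4,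
        dr_zero]
    · rw [upd_ne s _ x4 t g4]
      by_cases g2 : e = e2
      · subst g2
        refine upd_mem s _ (z := 0) ?_ (by rwa [zero_add])
        rw [upd_ne s _ x3 t q.n23, upd_ne s _ x1 t q.n12.symm, f2, dr_zero]
      · rw [upd_ne s _ x2 t g2]
        by_cases g3 : e = e3
        · subst g3
          refine upd_mem s _ (z := dr s e x3 (f e)) ?_ t3
          rw [upd_ne s _ x1 t q.n13.symm]
        · rw [upd_ne s _ x3 t g3]
          by_cases g1 : e = e1
          · subst g1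
            exact upd_mem s f rfl t2
          · rw [upd_ne s _ x1 t g1]
            exact hA e g2 g4

/-- the class of the colour `i`: the two edges are in different circuits, or there is a path from
`x2` to `x4` -/
theorem split (q : Qd s d x1 x2 x3 x4 e1 e2 e3 e4) (F : E → ℤ) (hF : ∀ v, bd s d F v = 0)
    (hv : ∀ e, F e = 0 ∨ F e = 1 ∨ F e = -1) (h1 : F e1 = dr s e1 x1 1) (h3 : F e3 = dr s e3 x4 1) :
    (∃ K : E → ℤ, (∀ v, bd s d K v = 0) ∧ (∀ e, K e = 0 ∨ K e = F e) ∧ K e1 = F e1 ∧ K e3 = 0) ∨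
    (∃ P : E → ℤ, (∀ v, bd s d P v = (if x2 = v then 1 else 0) - (if x4 = v then 1 else 0)) ∧
      (∀ e, P e = 0 ∨ P e = F e) ∧ P e1 = 0 ∧ P e3 = 0) := by
  set H : E → ℤ := F - Pi.single e1 (dr s e1 x1 1) - Pi.single e3 (dr s e3 x4 1) with hH
  have H1 : H e1 = 0 := by
    rw [hH, Pi.sub_apply, Pi.sub_apply, Pi.single_eq_same, Pi.single_eq_of_ne q.n13, h1]
    ring
  have H3 : H e3 = 0 := by
    rw [hH, Pi.sub_apply, Pi.sub_apply, Pi.single_eq_same, Pi.single_eq_of_ne q.n13.symm, h3]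
    ring
  have H0 : ∀ e, e ≠ e1 → e ≠ e3 → H e = F e := by
    intro e g1 g3
    rw [hH, Pi.sub_apply, Pi.sub_apply, Pi.single_eq_of_ne g1, Pi.single_eq_of_ne g3]
    ring
  have hb : ∀ v, bd s d H v = 0 - ((if x1 = v then 1 else 0) - (if x2 = v then 1 else 0)) -
      ((if x4 = v then 1 else 0) - (if x3 = v then 1 else 0)) := by
    intro v
    rw [hH, bd_sub, bd_sub, bd_dr q.j1 q.x12, bd_dr q.j3.symm q.x34.symm, hF]
  have hsub : ∀ P : E → ℤ, (∀ e, P e = 0 ∨ P e = H e) → P e1 = 0 ∧ P e3 = 0 ∧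
      ∀ e, P e = 0 ∨ P e = F e := by
    intro P hP
    have p1 : P e1 = 0 := by rcases hP e1 with h | h; exacts [h, by rw [h, H1]]
    have p3 : P e3 = 0 := by rcases hP e3 with h | h; exacts [h, by rw [h, H3]]
    refine ⟨p1, p3, fun e => ?_⟩
    by_cases g1 : e = e1
    · rw [g1]; exact Or.inl p1
    · by_cases g3 : e = e3
      · rw [g3]; exact Or.inl p3
      · rw [← H0 e g1 g3]; exact hP e
  obtain ⟨y, P, hy, hP, hbP⟩ := extract s d _ H (fun e => by
    by_cases g1 : e = e1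
    · rw [g1, H1]; exact Or.inl rfl
    · by_cases g3 : e = e3
      · rw [g3, H3]; exact Or.inl rfl
      · rw [H0 e g1 g3]; exact hv e) rfl x2 (by
    rw [hb, if_neg q.x12, if_pos rfl, if_neg q.x24.symm, if_neg q.x23.symm]
    norm_num)
  obtain ⟨p1, p3, p0⟩ := hsub P hP
  by_cases y1 : x1 = y
  · subst y1
    left
    refine ⟨P + Pi.single e1 (dr s e1 x1 1), fun v => ?_, fun e => ?_, ?_, ?_⟩
    · rw [bd_add, hbP, bd_dr q.j1 q.x12]
      ring
    · by_cases g1 : e = e1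
      · subst g1
        rw [Pi.add_apply, Pi.single_eq_same, p1, zero_add]
        exact Or.inr h1.symm
      · rw [Pi.add_apply, Pi.single_eq_of_ne g1, add_zero]
        exact p0 e
    · rw [Pi.add_apply, Pi.single_eq_same, p1, zero_add, h1]
    · rw [Pi.add_apply, Pi.single_eq_of_ne q.n13.symm, add_zero, p3]
  · by_cases y4 : x4 = y
    · subst y4
      right
      exact ⟨P, hbP, p0, p1, p3⟩
    · exfalso
      rw [hb, if_neg y1, if_neg y4] at hy
      split_ifs at hy <;> norm_num at hy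

theorem br_two (h : MinCx Rt s d) (q : Qd s d x1 x2 x3 x4 e1 e2 e3 e4) : Br s d {e2, e4} ∅ := by
  intro Y _ hc
  obtain ⟨c1, c2⟩ := card_aux h hc
  have c3 : (crs s d Y ∩ {e2, e4}).card ≤ ({e2, e4} : Finset E).card :=
    card_le_card inter_subset_right
  rw [card_pair q.n24] at c3
  have hsub : (crs s d Y ∩ {e2, e4}) = {e2, e4} := by
    refine eq_of_subset_of_card_le inter_subset_right ?_
    rw [card_pair q.n24]
    omega
  obtain ⟨w, hw⟩ := star h (Y := Y) (by omega)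
  have m : ∀ e ∈ ({e2, e4} : Finset E), s e = w ∨ d e = w := fun e he => by
    rw [← hsub] at he
    have := (mem_inter.1 he).1
    rw [← hw, mem_crs, mem_singleton, mem_singleton] at this
    tauto
  have m2 := m e2 (by simp)
  have m4 := m e4 (by simp)
  have a2 : w = x2 ∨ w = x3 := by
    rcases q.j2 with ⟨a, b⟩ | ⟨a, b⟩ <;> rw [a, b] at m2 <;> rcases m2 with hh | hh <;> simp [hh]
  have a4 : w = x4 ∨ w = x1 := by
    rcases q.j4 with ⟨a, b⟩ | ⟨a, b⟩ <;> rw [a, b] at m4 <;> rcases m4 with hh | hh <;> simp [hh]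
  rcases a2 with rfl | rfl <;> rcases a4 with g | g
  · exact q.x24 g
  · exact q.x12 g.symm
  · exact q.x34 g
  · exact q.x13 g.symm

/-- **No circuits with four edges.** -/
theorem quad (h : MinCx Rt s d) (q : Qd s d x1 x2 x3 x4 e1 e2 e3 e4) : False := by
  obtain ⟨f, hf, hf1, hf2⟩ := h.crit {e2, e4} ∅ (disjoint_empty_right _)
    ⟨e2, by simp, q.j2.prop q.x23⟩ (br_two h q)
  have f2 : f e2 = 0 := hf1 e2 (by simp)
  have f4 : f e4 = 0 := hf1 e4 (by simp)
  have hA : ∀ e, e ≠ e2 → e ≠ e4 → Rt (f e) := fun e g2 g4 => hf2 e (by simp [g2, g4]) (notMem_empty _)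
  have hv : ∀ e, f e = 0 ∨ Rt (f e) := by
    intro e
    by_cases g2 : e = e2
    · rw [g2]; exact Or.inl f2
    · by_cases g4 : e = e4
      · rw [g4]; exact Or.inl f4
      · exact Or.inr (hA e g2 g4)
  have hvi : ∀ (i : ℕ) e, f e i = 0 ∨ f e i = 1 ∨ f e i = -1 := by
    intro i e
    rcases hv e with g | g
    · rw [g]; exact Or.inl rfl
    · exact g.val i
  by_cases hne : dr s e1 x1 (f e1) + dr s e3 x3 (f e3) ≠ 0
  · exact h.nf (quad_ok q f hf f2 f4 hA hne)
  push Not at hne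
  have ha : Rt (dr s e1 x1 (f e1)) := (dr_mem alg.neg s e1 x1 _).2 (hA e1 q.n12 q.n14)
  obtain ⟨i, j, hij, hr⟩ := ha
  -- the values
  have v1 : f e1 = dr s e1 x1 (rt i j) := by rw [← hr, dr_dr]
  have v3' : dr s e3 x3 (f e3) = rt j i := by
    rw [hr] at hne
    rw [← rt_neg]
    exact (neg_eq_of_add_eq_zero_right hne).symm
  have v3'' : dr s e3 x4 (f e3) = rt i j := by
    rw [dr_rev q.j3 q.x34, v3', rt_neg]
  have v3 : f e3 = dr s e3 x4 (rt i j) := by rw [← v3'', dr_dr]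
  have ri : rt i j i = 1 := by rw [rt_apply, if_pos rfl, if_neg hij]; norm_num
  have rj : rt i j j = -1 := by rw [rt_apply, if_neg hij.symm, if_pos rfl]; norm_num
  have i1 : f e1 i = dr s e1 x1 1 := by rw [v1, dr_apply, ri]
  have i3 : f e3 i = dr s e3 x4 1 := by rw [v3, dr_apply, ri]
  have dneg : ∀ (e : E) (x : V), -(dr s e x (-1 : ℤ)) = dr s e x 1 := by
    intro e x; unfold dr; split_ifs <;> norm_num
  have j1 : -(f e1 j) = dr s e1 x1 1 := by rw [v1, dr_apply, rj, dneg]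
  have j3 : -(f e3 j) = dr s e3 x4 1 := by rw [v3, dr_apply, rj, dneg]
  obtain ⟨k, hk, hfk⟩ := fresh f hv {i, j}
  simp only [mem_insert, mem_singleton, not_or] at hk
  obtain ⟨hki, hkj⟩ := hk
  -- the colour `i`
  rcases split q (fun e => f e i) (fun v => by rw [bd_eval, hf]; rfl) (hvi i) i1 i3 with
    ⟨K, k1, k2, k3, k4⟩ | ⟨P, p1, p2, p3, p4⟩
  · refine h.nf (quad_ok q (f + fun e => K e • rt k i) (fun v => ?_) ?_ ?_ (fun e g2 g4 => ?_) ?_)
    · rw [bd_add, bd_smul, hf, k1, zero_smul, add_zero]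
    · have : K e2 = 0 := by rcases k2 e2 with g | g; exacts [g, by rw [g, f2]; rfl]
      rw [Pi.add_apply, f2, this, zero_smul, add_zero]
    · have : K e4 = 0 := by rcases k2 e4 with g | g; exacts [g, by rw [g, f4]; rfl]
      rw [Pi.add_apply, f4, this, zero_smul, add_zero]
    · exact recol (hA e g2 g4) (hfk e) (k2 e)
    · rw [Pi.add_apply, Pi.add_apply, k3, k4, zero_smul, add_zero, v3', dr_add, hr]
      have e5 : dr s e1 x1 (f e1 i • rt k i) = rt k i := by
        rw [i1]; unfold dr; split_ifs <;> simp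
      rw [e5, rt_add', rt_add]
      exact rt_ne_zero hki
  -- the colour `j`
  rcases split q (fun e => -(f e j)) (fun v => by
      have := bd_neg s d (fun e => f e j) v
      rw [bd_eval, hf] at this
      rw [show (fun e => -(f e j)) = -(fun e => f e j) from rfl, this]; rfl) (fun e => by
      rcases hvi j e with g | g | g <;> rw [g] <;> norm_num) j1 j3 with
    ⟨K, k1, k2, k3, k4⟩ | ⟨R, r1, r2, r3, r4⟩
  · have k2' : ∀ e, -(K e) = 0 ∨ -(K e) = f e j := by
      intro e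
      rcases k2 e with g | g
      · left; rw [g]; norm_num
      · right; rw [g]; exact neg_neg _
    refine h.nf (quad_ok q (f + fun e => (-(K e)) • rt k j) (fun v => ?_) ?_ ?_
      (fun e g2 g4 => ?_) ?_)
    · have := bd_smul s d (-K) (rt k j) v
      rw [bd_neg, k1, neg_zero, zero_smul] at this
      rw [bd_add, hf, zero_add]
      exact this
    · have : -(K e2) = 0 := by rcases k2' e2 with g | g; exacts [g, by rw [g, f2]; rfl]
      rw [Pi.add_apply, f2, this, zero_smul, add_zero]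
    · have : -(K e4) = 0 := by rcases k2' e4 with g | g; exacts [g, by rw [g, f4]; rfl]
      rw [Pi.add_apply, f4, this, zero_smul, add_zero]
    · exact recol (hA e g2 g4) (hfk e) (k2' e)
    · rw [Pi.add_apply, Pi.add_apply, k3, k4, neg_zero, zero_smul, add_zero, v3', dr_add, hr, neg_neg]
      have e5 : dr s e1 x1 (f e1 j • rt k j) = rt j k := by
        have : f e1 j = dr s e1 x1 (-1) := by rw [v1, dr_apply, rj]
        rw [this]; unfold dr; split_ifs <;> simp [rt_neg]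
      rw [e5, rt_add, rt_add']
      exact rt_ne_zero (Ne.symm hkj)
  -- the last case
  obtain ⟨m, hm, hfm⟩ := fresh f hv {i, j, k}
  simp only [mem_insert, mem_singleton, not_or] at hm
  obtain ⟨hmi, hmj, hmk⟩ := hm
  have r2' : ∀ e, -(R e) = 0 ∨ -(R e) = f e j := by
    intro e
    rcases r2 e with g | g
    · left; rw [g]; norm_num
    · right; rw [g]; exact neg_neg _
  set g0 : E → ℕ → ℤ := (f + fun e => P e • rt k i) + fun e => (-(R e)) • rt m j with hg0
  have b0 : ∀ v, bd s d g0 v = ((if x2 = v then 1 else 0) - (if x4 = v then 1 else 0) : ℤ) • rt k i -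
      ((if x2 = v then 1 else 0) - (if x4 = v then 1 else 0) : ℤ) • rt m j := by
    intro v
    have h5 := bd_smul s d (-R) (rt m j) v
    rw [bd_neg, r1, neg_smul] at h5
    have h6 := bd_smul s d P (rt k i) v
    rw [p1] at h6
    rw [hg0, bd_add, bd_add, hf, zero_add, h6]
    have h7 : bd s d (fun e => (-(R e)) • rt m j) v = _ := h5
    rw [h7]
    exact (sub_eq_add_neg _ _).symm
  have hz : ∀ e, f e = 0 → P e = 0 ∧ -(R e) = 0 := by
    intro e he
    constructor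
    · rcases p2 e with g | g; exacts [g, by rw [g, he]; rfl]
    · rcases r2' e with g | g; exacts [g, by rw [g, he]; rfl]
  have w1 : g0 e1 = f e1 := by
    rw [hg0, Pi.add_apply, Pi.add_apply, p3, r3, neg_zero, zero_smul, zero_smul, add_zero, add_zero]
  have w3 : g0 e3 = f e3 := by
    rw [hg0, Pi.add_apply, Pi.add_apply, p4, r4, neg_zero, zero_smul, zero_smul, add_zero, add_zero]
  have w2 : g0 e2 = 0 := by
    obtain ⟨a, b⟩ := hz e2 f2
    rw [hg0, Pi.add_apply, Pi.add_apply, a, b, zero_smul, zero_smul, add_zero, add_zero, f2]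
  have w4 : g0 e4 = 0 := by
    obtain ⟨a, b⟩ := hz e4 f4
    rw [hg0, Pi.add_apply, Pi.add_apply, a, b, zero_smul, zero_smul, add_zero, add_zero, f4]
  have wA : ∀ e, e ≠ e2 → e ≠ e4 → Rt (g0 e) := by
    intro e g2 g4
    rw [hg0, Pi.add_apply, Pi.add_apply]
    have z1 : Rt (f e + P e • rt k i) := recol (hA e g2 g4) (hfk e) (p2 e)
    have z2 : (f e + P e • rt k i) m = 0 := by
      rw [Pi.add_apply, hfm, Pi.smul_apply, rt_apply, if_neg hmk, if_neg hmi]
      simp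
    have z3 : (f e + P e • rt k i) j = f e j := by
      rw [Pi.add_apply, Pi.smul_apply, rt_apply, if_neg (Ne.symm hkj), if_neg hij.symm]
      simp
    exact recol z1 z2 (by rw [z3]; exact r2' e)
  refine h.nf ⟨upd s (upd s (upd s (upd s g0 e1 x1 (rt j m)) e3 x4 (rt k i)) e2 x2 (rt i k)) e4 x4
    (rt j m), fun v => ?_, fun e he => absurd he (notMem_empty _), fun e _ _ => ?_⟩
  · rw [upd_bd _ q.j4 q.x14.symm, upd_bd _ q.j2 q.x23, upd_bd _ q.j3.symm q.x34.symm,
      upd_bd _ q.j1 q.x12, b0]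
    have r5 : rt m j = - rt j m := (rt_neg j m).symm
    have r6 : rt i k = - rt k i := (rt_neg k i).symm
    rw [r5, r6]
    split_ifs <;> simp only [sub_zero, zero_sub, sub_self, zero_smul, one_smul, neg_smul, smul_neg,
      neg_neg] <;> abel
  · by_cases g4 : e = e4
    · subst g4
      refine upd_mem s _ (z := 0) ?_ (by rw [zero_add]; exact Rt.of (Ne.symm hmj))
      rw [upd_ne s _ x2 _ q.n24.symm, upd_ne s _ x4 _ q.n34.symm, upd_ne s _ x1 _ q.n14.symm, w4,
        dr_zero]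
    · rw [upd_ne s _ x4 _ g4]
      by_cases g2 : e = e2
      · subst g2
        refine upd_mem s _ (z := 0) ?_ (by rw [zero_add]; exact Rt.of (Ne.symm hki))
        rw [upd_ne s _ x4 _ q.n23, upd_ne s _ x1 _ q.n12.symm, w2, dr_zero]
      · rw [upd_ne s _ x2 _ g2]
        by_cases g3 : e = e3
        · subst g3
          refine upd_mem s _ (z := rt i j) ?_ (by rw [rt_add']; exact Rt.of hkj)
          rw [upd_ne s _ x1 _ q.n13.symm, w3, v3'']
        · rw [upd_ne s _ x4 _ g3]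
          by_cases g1 : e = e1
          · subst g1
            refine upd_mem s _ (z := rt i j) ?_ (by rw [rt_add]; exact Rt.of (Ne.symm hmi))
            rw [w1, hr]
          · rw [upd_ne s _ x1 _ g1]
            exact wA e g2 g4

end Pool.Agent.Q253.OD
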