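import Pool.Agent.Q253.OD.Cls
import Pool.Agent.TH505.OCDC.Cover

/-!
# From the flows to directed cycles of simple graphs
-/

set_option autoImplicit false
set_option linter.unusedSectionVars false

namespace Pool.Agent.Q253.OD

open Finset
open Pool.Agent.TH676.A (crs mem_crs Br)
open Pool.Agent.TH505.OCDC

variable {V : Type}

/-- first end -/
noncomputable def sE (G : SimpleGraph V) (e : G.edgeSet) : V := (Quot.out e.1).1
/-- second end -/
noncomputable def tE (G : SimpleGraph V) (e : G.edgeSet) : V := (Quot.out e.1).2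

theorem st_mk (G : SimpleGraph V) (e : G.edgeSet) : s(sE G e, tE G e) = e.1 := by
  unfold sE tE
  exact Quot.out_eq e.1

theorem st_adj (G : SimpleGraph V) (e : G.edgeSet) : G.Adj (sE G e) (tE G e) := by
  have h := e.2
  rw [← st_mk G e, SimpleGraph.mem_edgeSet] at h
  exact h

theorem st_eq (G : SimpleGraph V) {u v : V} (h : G.Adj u v) (e : G.edgeSet) :
    e = ⟨s(u, v), h⟩ ↔ (sE G e = u ∧ tE G e = v) ∨ (tE G e = u ∧ sE G e = v) := by
  rw [Subtype.ext_iff, ← st_mk G e, Sym2.eq_iff]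
  constructor
  · rintro (h | ⟨h1, h2⟩)
    · exact Or.inl h
    · exact Or.inr ⟨h2, h1⟩
  · rintro (h | ⟨h1, h2⟩)
    · exact Or.inl h
    · exact Or.inr ⟨h2, h1⟩

theorem cross {G : SimpleGraph V} (Z : Set V) : ∀ {a b : V} (_ : G.Walk a b), a ∈ Z → b ∉ Z →
    ∃ x y, G.Adj x y ∧ x ∈ Z ∧ y ∉ Z := by
  intro a b p
  induction p with
  | nil => intro h1 h2; exact absurd h1 h2
  | @cons a c b h p ih =>
    intro h1 h2
    by_cases hc : c ∈ Z
    · exact ih hc h2
    · exact ⟨a, c, h, h1, hc⟩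

theorem br_conv [Fintype V] [DecidableEq V] (G : SimpleGraph V) [Fintype G.edgeSet]
    [DecidableEq G.edgeSet]
    (h : ∀ u v : V, G.Adj u v → (G.deleteEdges {s(u, v)}).Reachable u v) :
    Br (sE G) (tE G) ∅ ∅ := by
  intro Z _ h1
  rw [sdiff_empty] at h1
  obtain ⟨e, he⟩ := Finset.card_eq_one.1 h1
  have hmem : ∀ e', e' ∈ crs (sE G) (tE G) Z ↔ e' = e := fun e' => by rw [he, mem_singleton]
  have h2 : ¬ (sE G e ∈ Z ↔ tE G e ∈ Z) := mem_crs.1 ((hmem e).2 rfl)
  have key : ∀ u v, G.Adj u v → u ∈ Z → v ∉ Z → e.1 = s(u, v) := by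
    intro u v huv hu hv
    have h3 : (⟨s(u, v), huv⟩ : G.edgeSet) ∈ crs (sE G) (tE G) Z := by
      rw [mem_crs]
      rcases (st_eq G huv ⟨s(u, v), huv⟩).1 rfl with ⟨h1, h2⟩ | ⟨h1, h2⟩
      · rw [h1, h2]; tauto
      · rw [h1, h2]; tauto
    rw [hmem] at h3
    rw [← h3]
  obtain ⟨u, v, huv, hu, hv⟩ : ∃ u v, G.Adj u v ∧ u ∈ Z ∧ v ∉ Z := by
    by_cases hs : sE G e ∈ Z
    · exact ⟨_, _, st_adj G e, hs, fun h => h2 ⟨fun _ => h, fun _ => hs⟩⟩
    · have ht : tE G e ∈ Z := by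
        by_contra h
        exact h2 ⟨fun h' => absurd h' hs, fun h' => absurd h' h⟩
      exact ⟨_, _, (st_adj G e).symm, ht, hs⟩
  obtain ⟨p⟩ := h u v huv
  obtain ⟨x, y, hxy, hx, hy⟩ := cross (Z : Set V) p (by simpa using hu) (by simpa using hv)
  rw [SimpleGraph.deleteEdges_adj] at hxy
  have h4 := key u v huv hu hv
  have h5 := key x y hxy.1 (by simpa using hx) (by simpa using hy)
  exact hxy.2 (by rw [Set.mem_singleton_iff, ← h4, ← h5])

/-- the flow of the coordinate `i` on the pairs of vertices -/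
noncomputable def gfl [DecidableEq V] (G : SimpleGraph V) [Fintype G.edgeSet]
    (f : G.edgeSet → ℕ → ℤ) (i : ℕ) (u v : V) : ℤ :=
  ∑ e, f e i * ((if sE G e = u ∧ tE G e = v then 1 else 0) -
    (if tE G e = u ∧ sE G e = v then 1 else 0))

theorem cycles_of_flow [Fintype V] [DecidableEq V] (G : SimpleGraph V) [Fintype G.edgeSet]
    [DecidableEq G.edgeSet] (h : FlowOn Rt (sE G) (tE G) ∅ ∅) :
    ∃ C : List (Σ v : V, G.Walk v v), (∀ c ∈ C, c.2.IsCycle) ∧ ∀ u v, G.Adj u v → tot C u v = 1 := by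
  classical
  obtain ⟨f, hf1, -, hf2⟩ := h
  have hf3 : ∀ e, ∃ i j, i ≠ j ∧ f e = rt i j := fun e => hf2 e (notMem_empty _) (notMem_empty _)
  choose a b hab hfe using hf3
  obtain ⟨N, hN⟩ : ∃ N, ∀ e, a e < N ∧ b e < N := by
    refine ⟨(univ.sup a) + (univ.sup b) + 1, fun e => ?_⟩
    have h1 := le_sup (f := a) (mem_univ e)
    have h2 := le_sup (f := b) (mem_univ e)
    omega
  have hanti : ∀ i u v, gfl G f i v u = - gfl G f i u v := by
    intro i u v
    unfold gfl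
    rw [← Finset.sum_neg_distrib]
    refine Finset.sum_congr rfl fun e _ => ?_
    simp only [and_comm]
    ring
  have hz : ∀ i u v, ¬ G.Adj u v → gfl G f i u v = 0 := by
    intro i u v h
    unfold gfl
    refine Finset.sum_eq_zero fun e _ => ?_
    rw [if_neg, if_neg]
    · ring
    · rintro ⟨h1, h2⟩
      exact h (h1 ▸ h2 ▸ (st_adj G e).symm)
    · rintro ⟨h1, h2⟩
      exact h (h1 ▸ h2 ▸ (st_adj G e))
  -- the values on an edge
  have hval : ∀ u v (_ : G.Adj u v), ∃ p q, p ≠ q ∧ p < N ∧ ∀ i, gfl G f i u v = rt p q i := by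
    intro u v h
    have hne := h.ne
    have h0 : ∀ i, gfl G f i u v = f ⟨s(u, v), h⟩ i *
        ((if sE G ⟨s(u, v), h⟩ = u ∧ tE G ⟨s(u, v), h⟩ = v then 1 else 0) -
          (if tE G ⟨s(u, v), h⟩ = u ∧ sE G ⟨s(u, v), h⟩ = v then 1 else 0)) := by
      intro i
      unfold gfl
      refine Finset.sum_eq_single_of_mem (⟨s(u, v), h⟩ : G.edgeSet) (mem_univ _) ?_
      intro e _ hne'
      have h1 := (st_eq G h e).not.1 hne'
      push Not at h1
      rw [if_neg (fun h2 => h1.1 h2.1 h2.2), if_neg (fun h2 => h1.2 h2.1 h2.2)]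
      ring
    rcases (st_eq G h ⟨s(u, v), h⟩).1 rfl with ⟨h1, h2⟩ | ⟨h1, h2⟩
    · refine ⟨a ⟨s(u, v), h⟩, b ⟨s(u, v), h⟩, hab _, (hN _).1, fun i => ?_⟩
      rw [h0 i, if_pos (And.intro h1 h2), if_neg (fun h3 => hne (h1.symm.trans h3.2)), hfe]
      ring
    · refine ⟨b ⟨s(u, v), h⟩, a ⟨s(u, v), h⟩, (hab _).symm, (hN _).2, fun i => ?_⟩
      rw [h0 i, if_neg (fun h3 => hne (h3.1.symm.trans h2)), if_pos (And.intro h1 h2), hfe,
        ← rt_neg]
      simp
  have hcons : ∀ i u, ∑ w, gfl G f i u w = 0 := by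
    intro i u
    have h3 := congrFun (hf1 u) i
    rw [← bd_eval] at h3
    refine Eq.trans ?_ h3
    unfold gfl bd
    rw [Finset.sum_comm]
    refine Finset.sum_congr rfl fun e _ => ?_
    rw [← Finset.mul_sum, Finset.sum_sub_distrib]
    by_cases h : sE G e = u <;> by_cases h' : tE G e = u <;> simp [h, h']
  obtain ⟨C, hC1, hC2⟩ := flows_decomp (G := G) (List.range N) (gfl G f) hanti (fun i u v => by
    by_cases h : G.Adj u v
    · obtain ⟨p, q, hpq, -, hi⟩ := hval u v h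
      rw [hi i, rt_apply]
      split_ifs <;> simp
    · exact Or.inl (hz i u v h)) (fun i u v hne => by
      by_contra h'
      exact hne (hz i u v h')) hcons
  refine ⟨C, hC1, fun u v huv => ?_⟩
  rw [hC2]
  obtain ⟨p, q, hpq, hp, hi⟩ := hval u v huv
  have h4 : ((List.range N).map (fun i => ind (gfl G f i u v = 1))).sum =
      ∑ i ∈ range N, ind (gfl G f i u v = 1) := rfl
  rw [h4, Finset.sum_eq_single_of_mem p (mem_range.2 hp)]
  · refine ind_pos ?_
    rw [hi, rt_apply, if_pos rfl, if_neg hpq]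
    norm_num
  · intro i _ hip
    refine ind_neg fun h5 => ?_
    rw [hi, rt_apply, if_neg hip] at h5
    split_ifs at h5 <;> norm_num at h5

end Pool.Agent.Q253.OD
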