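import Pool.Agent.Q253.OD.Sim

/-!
# The three classes of simple graphs and edge-disjoint unions
-/

set_option autoImplicit false
set_option linter.unusedSectionVars false

namespace Pool.Agent.Q253.OD

open Finset
open Pool.Agent.TH676.A (crs mem_crs Br)
open Pool.Agent.TH505.OCDC
open Pool.Agent.Q253.M8 (Mt)
open Pool.Agent.Q253.VC (Cov)
open Pool.Agent.Q253.P3 (Cl3)

variable {V : Type}

/-- all arcs are traversed exactly once -/
def OC (G : SimpleGraph V) : Prop :=
  ∃ C : List (Σ v : V, G.Walk v v), (∀ c ∈ C, c.2.IsCycle) ∧ ∀ u v, G.Adj u v → tot C u v = 1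

theorem oc_of_mt [Fintype V] (G : SimpleGraph V)
    (h : ∀ u v : V, G.Adj u v → (G.deleteEdges {s(u, v)}).Reachable u v)
    (hM : ∀ M : Finset (Sym2 V), (∀ e ∈ M, e ∈ G.edgeSet) →
      (∀ e ∈ M, ∀ f ∈ M, e ≠ f → ∀ v, v ∈ e → v ∉ f) → M.card ≤ 8) : OC G := by
  classical
  refine cycles_of_flow G (flow_of_mt _ _ (br_conv G h) ?_)
  intro M _ hM2
  rw [← card_image_of_injective M Subtype.val_injective]
  refine hM _ (fun e he => ?_) (fun e he f hf hef v hve hvf => ?_)
  · obtain ⟨e', _, rfl⟩ := mem_image.1 he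
    exact e'.2
  · obtain ⟨e', he', rfl⟩ := mem_image.1 he
    obtain ⟨f', hf', rfl⟩ := mem_image.1 hf
    obtain ⟨h1, h2, h3, h4⟩ := hM2 e' he' f' hf' (fun hh => hef (by rw [hh]))
    rw [← st_mk G e', Sym2.mem_iff] at hve
    rw [← st_mk G f', Sym2.mem_iff] at hvf
    rcases hve with rfl | rfl <;> rcases hvf with hvf | hvf
    · exact h1 hvf
    · exact h2 hvf
    · exact h3 hvf
    · exact h4 hvf

theorem oc_of_cov [Fintype V] (G : SimpleGraph V)
    (h : ∀ u v : V, G.Adj u v → (G.deleteEdges {s(u, v)}).Reachable u v)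
    (hM : ∃ X : Finset V, X.card ≤ 9 ∧ ∀ u v, G.Adj u v → u ∈ X ∨ v ∈ X) : OC G := by
  classical
  obtain ⟨X, h1, h2⟩ := hM
  exact cycles_of_flow G (flow_of_cov _ _ (br_conv G h) ⟨X, h1, fun e _ => h2 _ _ (st_adj G e)⟩)

theorem oc_of_p3 [Fintype V] (G : SimpleGraph V)
    (h : ∀ u v : V, G.Adj u v → (G.deleteEdges {s(u, v)}).Reachable u v)
    (hM : ∃ X : Finset V, X.card ≤ 5 ∧ ∀ a b c, a ∉ X → b ∉ X → c ∉ X → G.Adj a b → G.Adj b c →
      a = c) : OC G := by
  classical
  obtain ⟨X, h1, h2⟩ := hM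
  have key : ∀ (e : G.edgeSet) (x y : V), Pool.Agent.Q253.P3.Jn (sE G) (tE G) e x y → G.Adj x y := by
    rintro e x y (⟨a, b⟩ | ⟨a, b⟩)
    · rw [← a, ← b]; exact st_adj G e
    · rw [← a, ← b]; exact (st_adj G e).symm
  exact cycles_of_flow G (flow_of_p3 _ _ (br_conv G h) ⟨X, h1, fun a b c e f ha hb hc _ _ he hf =>
    h2 a b c ha hb hc (key e a b he) (key f b c hf)⟩)

theorem dc_mapLe {G H : SimpleGraph V} (hle : H ≤ G) {x y : V} (p : H.Walk x y) (u v : V) :
    dc (p.mapLe hle) u v = dc p u v := by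
  classical
  induction p with
  | nil => rfl
  | cons h p ih =>
    have h1 : (SimpleGraph.Walk.cons h p).mapLe hle =
        SimpleGraph.Walk.cons (hle h) (p.mapLe hle) := rfl
    unfold dc at ih ⊢
    rw [h1, SimpleGraph.Walk.darts_cons, SimpleGraph.Walk.darts_cons]
    simp only [List.filter_cons]
    split_ifs
    · simpa using ih
    · simpa using ih

theorem tot_map {G H : SimpleGraph V} (hle : H ≤ G) (C : List (Σ v : V, H.Walk v v)) (u v : V) :
    tot (C.map fun c => (⟨c.1, c.2.mapLe hle⟩ : Σ v : V, G.Walk v v)) u v = tot C u v := by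
  unfold tot
  rw [List.map_map]
  congr 1
  refine List.map_congr_left fun c _ => ?_
  exact dc_mapLe hle c.2 u v

theorem dc_zero {H : SimpleGraph V} {x y : V} (p : H.Walk x y) {u v : V} (h : ¬ H.Adj u v) :
    dc p u v = 0 := by
  classical
  unfold dc
  rw [List.length_eq_zero_iff, List.filter_eq_nil_iff]
  intro d _ hd
  rw [decide_eq_true_eq] at hd
  have h1 := d.adj
  apply h
  have h2 : d.fst = u := congrArg Prod.fst hd
  have h3 : d.snd = v := congrArg Prod.snd hd
  rw [← h2, ← h3]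
  exact h1

theorem tot_zero {H : SimpleGraph V} (C : List (Σ v : V, H.Walk v v)) {u v : V}
    (h : ¬ H.Adj u v) : tot C u v = 0 := by
  unfold tot
  rw [List.sum_eq_zero]
  intro x hx
  obtain ⟨c, _, rfl⟩ := List.mem_map.1 hx
  exact dc_zero c.2 h

theorem oc_union {ι : Type} [Fintype ι] (G : SimpleGraph V) (H : ι → SimpleGraph V)
    (hG : ∀ i u v, (H i).Adj u v → G.Adj u v) (hU : ∀ u v, G.Adj u v → ∃! i, (H i).Adj u v)
    (hH : ∀ i, OC (H i)) : OC G := by
  classical
  choose C hC1 hC2 using hH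
  have hle : ∀ i, H i ≤ G := fun i u v h => hG i u v h
  have key : ∀ L : List ι, ∃ D : List (Σ v : V, G.Walk v v), (∀ c ∈ D, c.2.IsCycle) ∧
      ∀ u v, tot D u v = (L.map fun i => tot (C i) u v).sum := by
    intro L
    induction L with
    | nil => exact ⟨[], by simp, fun u v => rfl⟩
    | cons i L ih =>
      obtain ⟨D, h1, h2⟩ := ih
      refine ⟨((C i).map fun c => (⟨c.1, c.2.mapLe (hle i)⟩ : Σ v : V, G.Walk v v)) ++ D, ?_, ?_⟩
      · intro c hc
        rcases List.mem_append.1 hc with hc | hc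
        · obtain ⟨c', hc', rfl⟩ := List.mem_map.1 hc
          exact (hC1 i c' hc').mapLe (hle i)
        · exact h1 c hc
      · intro u v
        rw [tot_append, tot_map, h2, List.map_cons, List.sum_cons]
  obtain ⟨D, h1, h2⟩ := key (univ : Finset ι).toList
  refine ⟨D, h1, fun u v huv => ?_⟩
  rw [h2, Finset.sum_map_toList]
  obtain ⟨i, hi, hi'⟩ := hU u v huv
  simp only at hi hi'
  rw [Finset.sum_eq_single_of_mem i (mem_univ i)]
  · exact hC2 i u v hi
  · intro j _ hj
    exact tot_zero _ fun hh => hj (hi' j hh)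

end Pool.Agent.Q253.OD
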